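import Pool.Agent.LawnInt.Chain

/-!
# Sweeping the two sides of a corridor
-/

namespace Pool.Agent.LawnInt

open Finset

/-- sign of the side -/
def sg (b : Bool) : ℝ := if b then 1 else -1

/-- start of the side -/
noncomputable def st (b : Bool) : ℝ := if b then -1 else -(1 / 2)

lemma sg_not (b : Bool) : sg (!b) = -sg b := by cases b <;> simp [sg]

lemma sg_sq (b : Bool) : sg b ^ 2 = 1 := by cases b <;> simp [sg]

/-- the point number `k` of side `b` is covered by `z` -/
def cov (H r0 η : ℝ) (b : Bool) (k : ℕ) (z : ℂ) : Prop :=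
  (z.re - (st b + k * η)) ^ 2 + (H - sg b * z.im) ^ 2 ≤ r0 ^ 2

/-- half the length of the interval covered by `z` -/
noncomputable def hf (H r0 : ℝ) (b : Bool) (z : ℂ) : ℝ := Real.sqrt (r0 ^ 2 - (H - sg b * z.im) ^ 2)

lemma hf_nonneg (H r0 : ℝ) (b : Bool) (z : ℂ) : 0 ≤ hf H r0 b z := Real.sqrt_nonneg _

lemma hf_sq {H r0 : ℝ} {b : Bool} {z : ℂ} (h : (H - sg b * z.im) ^ 2 ≤ r0 ^ 2) :
    hf H r0 b z ^ 2 + (H - sg b * z.im) ^ 2 = r0 ^ 2 := by
  unfold hf
  rw [Real.sq_sqrt (by linarith)]; ring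

lemma cov_im {H r0 η : ℝ} {b : Bool} {k : ℕ} {z : ℂ} (h : cov H r0 η b k z) :
    (H - sg b * z.im) ^ 2 ≤ r0 ^ 2 := by
  unfold cov at h
  have := sq_nonneg (z.re - (st b + k * η))
  linarith

lemma cov_iff {H r0 η : ℝ} {b : Bool} {k : ℕ} {z : ℂ} (h : (H - sg b * z.im) ^ 2 ≤ r0 ^ 2) :
    cov H r0 η b k z ↔ |z.re - (st b + k * η)| ≤ hf H r0 b z := by
  unfold cov
  rw [← hf_sq h, add_le_add_iff_right, sq_le_sq, abs_of_nonneg (hf_nonneg H r0 b z)]

/-- no point covers points of both sides -/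
lemma cov_excl {H r0 η : ℝ} (hr0 : 0 ≤ r0) (hH : r0 < H) {b : Bool} {k k' : ℕ} {z : ℂ}
    (h : cov H r0 η b k z) : ¬ cov H r0 η (!b) k' z := by
  intro h'
  have h1 := (abs_le_of_sq_le_sq' (cov_im h) hr0).2
  have h2 := (abs_le_of_sq_le_sq' (cov_im h') hr0).2
  rw [sg_not] at h2
  linarith

/-- the first uncovered point -/
lemma next (G : ℕ) (C : ℕ → Prop) :
    ∃ f ≤ G + 1, (∀ k < f, C k) ∧ (f ≤ G → ¬ C f) := by
  classical
  have hex : ∃ k, k = G + 1 ∨ ¬ C k := ⟨G + 1, Or.inl rfl⟩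
  refine ⟨Nat.find hex, Nat.find_min' hex (Or.inl rfl), fun k hk => ?_, fun hf => ?_⟩
  · have := Nat.find_min hex hk
    push Not at this
    exact this.2
  · rcases Nat.find_spec hex with h | h
    · omega
    · exact h

section

variable (w : ℕ → ℂ) (H r0 η : ℝ) (G : ℕ)

/-- The state before the point `w i` is processed: `f` = frontiers, `O` = last events on the two
sides, `ρ` = their right ends, `b` = side of the last event `e`, `b0` = side of the first one,
`n` = number of switches, `S` = progress in the switches. -/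
structure St (i : ℕ) (f O : Bool → ℕ) (ρ : Bool → ℝ) (b b0 : Bool) (e n : ℕ) (S : ℝ) : Prop where
  c1 : ∀ a k, k < f a → ∃ j < i, cov H r0 η a k (w j)
  c2 : ∀ a, f a ≤ G → ∀ j < i, ¬ cov H r0 η a (f a) (w j)
  c3 : ∀ a, f a ≤ G + 1
  oi : ∀ a, O a < i
  rx : ∀ a, (w (O a)).re ≤ ρ a
  loss : ∀ a, st a + f a * η - ρ a ≤ η + 2 * (X w (O a) - (w (O a)).re)
  oe : O b = e
  touch : ((w e).re - ρ b) ^ 2 + (H - sg b * (w e).im) ^ 2 ≤ r0 ^ 2
  par : Even n ↔ b = b0
  prog : ρ (!b) - st (!b0) - 2 * R w (O b) - 2 * R w (O (!b)) - n * η ≤ S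
  main : ∀ si ga : ℝ, 0 ≤ si → si ^ 2 + ga ^ 2 = 1 → 10 * si ^ 2 ≤ 1 →
    (w e).re - (w 0).re + (1 - 2 * si ^ 2) * Bk w e + 2 * si ^ 2 * S + 4 * n * si * (H * ga - r0)
      ≤ L w e

/-- the state before any event -/
structure St0 (i : ℕ) : Prop where
  c2 : ∀ a, ∀ j < i, ¬ cov H r0 η a 0 (w j)

variable {w H r0 η G}

/-- the loss property at a new event -/
lemma loss_new (hη : 0 ≤ η) {i : ℕ} {a : Bool} {f0 f1 : ℕ} (h0 : cov H r0 η a f0 (w i))
    (hlt : f0 < f1) (hc : ∀ k < f1, ∃ j < i + 1, cov H r0 η a k (w j))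
    (hu : ∀ j < i, ¬ cov H r0 η a f0 (w j)) :
    st a + f1 * η - ((w i).re + hf H r0 a (w i)) ≤ η + 2 * (X w i - (w i).re) := by
  have hXi := re_le_X w i
  obtain ⟨g, rfl⟩ : ∃ g, f1 = g + 1 := ⟨f1 - 1, by omega⟩
  have hg : f0 ≤ g := by omega
  have hgR : (f0 : ℝ) ≤ g := by exact_mod_cast hg
  have hmul : (f0 : ℝ) * η ≤ g * η := mul_le_mul_of_nonneg_right hgR hη
  push_cast
  by_cases hcase : st a + g * η ≤ (w i).re + hf H r0 a (w i)
  · have : (g + 1 : ℝ) * η = g * η + η := by ring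
    rw [this]; linarith
  · have hcase' := not_le.1 hcase
    obtain ⟨j, hj, hjc⟩ := hc g (by omega)
    have hji : j ≠ i := by
      rintro rfl
      have := (cov_iff (cov_im hjc)).1 hjc
      have h1 := (abs_le.1 this).1
      linarith
    have hj' : j < i := by omega
    have h1 := (cov_iff (cov_im hjc)).1 hjc
    have h2 : ¬ |(w j).re - (st a + f0 * η)| ≤ hf H r0 a (w j) := by
      intro h
      exact hu j hj' ((cov_iff (cov_im hjc)).2 h)
    have h3 := (cov_iff (cov_im h0)).1 h0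
    have h4 : st a + f0 * η < (w j).re - hf H r0 a (w j) := by
      by_contra hcon
      have hcon' := not_lt.1 hcon
      apply h2
      rw [abs_le]
      have h5 := (abs_le.1 h1).1
      constructor <;> linarith
    have h5 := (abs_le.1 h1).1
    have h6 := (abs_le.1 h3).2
    have h7 := re_le_X' w hj'.le
    have : (g + 1 : ℝ) * η = g * η + η := by ring
    rw [this]
    linarith

/-- Case A: the new point covers no frontier. -/
lemma stepA {i : ℕ} {f O : Bool → ℕ} {ρ : Bool → ℝ} {b b0 : Bool} {e n : ℕ} {S : ℝ}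
    (h : St w H r0 η G i f O ρ b b0 e n S) (hn : ∀ a, f a ≤ G → ¬ cov H r0 η a (f a) (w i)) :
    St w H r0 η G (i + 1) f O ρ b b0 e n S := by
  refine ⟨fun a k hk => ?_, fun a ha j hj => ?_, h.c3, fun a => (h.oi a).trans (Nat.lt_succ_self _),
    h.rx, h.loss, h.oe, h.touch, h.par, h.prog, h.main⟩
  · obtain ⟨j, hj, hc⟩ := h.c1 a k hk
    exact ⟨j, by omega, hc⟩
  · rcases Nat.lt_succ_iff_lt_or_eq.1 hj with h1 | h1
    · exact h.c2 a ha j h1
    · rw [h1]; exact hn a ha

lemma upd_same {α : Type} (f : Bool → α) (a : Bool) (x : α) : Function.update f a x a = x :=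
  Function.update_self _ _ _

lemma upd_not {α : Type} (f : Bool → α) (a : Bool) (x : α) :
    Function.update f a x (!a) = f (!a) := by
  apply Function.update_of_ne
  cases a <;> simp

lemma eq_or_not (a c : Bool) : c = a ∨ c = !a := by
  cases a <;> cases c <;> simp

/-- Case B: the new point covers the frontier of side `a`; the purely local part. -/
lemma stepB_local (hr0 : 0 ≤ r0) (hH : r0 < H) (hη : 0 ≤ η)
    {i : ℕ} {f : Bool → ℕ} {a : Bool}
    (c1 : ∀ a k, k < f a → ∃ j < i, cov H r0 η a k (w j))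
    (c2 : ∀ a, f a ≤ G → ∀ j < i, ¬ cov H r0 η a (f a) (w j))
    (c3 : ∀ a, f a ≤ G + 1) (hfa : f a ≤ G)
    (hc : cov H r0 η a (f a) (w i)) :
    ∃ g : ℕ, (∀ c k, k < Function.update f a g c → ∃ j < i + 1, cov H r0 η c k (w j)) ∧
      (∀ c, Function.update f a g c ≤ G → ∀ j < i + 1,
        ¬ cov H r0 η c (Function.update f a g c) (w j)) ∧
      (∀ c, Function.update f a g c ≤ G + 1) ∧
      st a + g * η - ((w i).re + hf H r0 a (w i)) ≤ η + 2 * (X w i - (w i).re) := by
  obtain ⟨g, hg1, hg2, hg3⟩ := next G (fun k => ∃ j < i + 1, cov H r0 η a k (w j))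
  have hlt : f a < g := by
    by_contra hcon
    have hcon' := not_lt.1 hcon
    apply hg3 (hcon'.trans hfa)
    rcases Nat.eq_or_lt_of_le hcon' with h1 | h1
    · rw [h1]; exact ⟨i, by omega, hc⟩
    · obtain ⟨j, hj, hjc⟩ := c1 a g h1
      exact ⟨j, by omega, hjc⟩
  refine ⟨g, fun c k hk => ?_, fun c hcG j hj => ?_, fun c => ?_, ?_⟩
  · rcases eq_or_not a c with rfl | rfl
    · rw [upd_same] at hk; exact hg2 k hk
    · rw [upd_not] at hk
      obtain ⟨j, hj, hjc⟩ := c1 _ k hk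
      exact ⟨j, by omega, hjc⟩
  · rcases eq_or_not a c with rfl | rfl
    · rw [upd_same] at hcG ⊢
      intro hcc
      exact hg3 hcG ⟨j, hj, hcc⟩
    · rw [upd_not] at hcG ⊢
      rcases Nat.lt_succ_iff_lt_or_eq.1 hj with h1 | h1
      · exact c2 _ hcG j h1
      · rw [h1]; exact cov_excl hr0 hH hc
  · rcases eq_or_not a c with rfl | rfl
    · rw [upd_same]; exact hg1
    · rw [upd_not]; exact c3 _
  · exact loss_new hη hc hlt hg2 (fun j hj => c2 a hfa j hj)

/-- touching with the right end -/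
lemma touch_right {H r0 η : ℝ} {a : Bool} {k : ℕ} {z : ℂ} (h : cov H r0 η a k z) :
    (z.re - (z.re + hf H r0 a z)) ^ 2 + (H - sg a * z.im) ^ 2 ≤ r0 ^ 2 := by
  have := hf_sq (cov_im h)
  have e : (z.re - (z.re + hf H r0 a z)) ^ 2 = hf H r0 a z ^ 2 := by ring
  rw [e]; exact this.le

/-- touching with the left end -/
lemma touch_left {H r0 η : ℝ} {a : Bool} {k : ℕ} {z : ℂ} (h : cov H r0 η a k z) :
    (z.re - (z.re - hf H r0 a z)) ^ 2 + (H - sg a * z.im) ^ 2 ≤ r0 ^ 2 := by
  have := hf_sq (cov_im h)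
  have e : (z.re - (z.re - hf H r0 a z)) ^ 2 = hf H r0 a z ^ 2 := by ring
  rw [e]; exact this.le

/-- Case B, same side. -/
lemma stepB_same (hr0 : 0 ≤ r0) (hH : r0 < H) (hη : 0 ≤ η)
    {i : ℕ} {f O : Bool → ℕ} {ρ : Bool → ℝ} {b b0 : Bool} {e n : ℕ} {S : ℝ}
    (h : St w H r0 η G i f O ρ b b0 e n S) (hfa : f b ≤ G)
    (hc : cov H r0 η b (f b) (w i)) :
    ∃ f' O' ρ', St w H r0 η G (i + 1) f' O' ρ' b b0 i n S := by
  obtain ⟨g, h1, h2, h3, h4⟩ := stepB_local hr0 hH hη h.c1 h.c2 h.c3 hfa hc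
  have hei : e ≤ i := by rw [← h.oe]; exact (h.oi b).le
  refine ⟨Function.update f b g, Function.update O b i,
    Function.update ρ b ((w i).re + hf H r0 b (w i)), h1, h2, h3, fun c => ?_, fun c => ?_,
    fun c => ?_, upd_same _ _ _, ?_, h.par, ?_, fun si ga hsi hga hs => ?_⟩
  · rcases eq_or_not b c with rfl | rfl
    · rw [upd_same]; omega
    · rw [upd_not]; exact (h.oi _).trans (Nat.lt_succ_self _)
  · rcases eq_or_not b c with rfl | rfl
    · rw [upd_same, upd_same]
      have := hf_nonneg H r0 c (w i)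
      linarith
    · rw [upd_not, upd_not]; exact h.rx _
  · rcases eq_or_not b c with rfl | rfl
    · rw [upd_same, upd_same, upd_same]; exact h4
    · rw [upd_not, upd_not, upd_not]; exact h.loss _
  · rw [upd_same]; exact touch_right hc
  · rw [upd_not, upd_not, upd_same]
    have := h.prog
    have hR : R w (O b) ≤ R w i := R_mono w (h.oi b).le
    linarith
  · have hm := h.main si ga hsi hga hs
    have ht := tele w hei 1 0 (1 - 2 * si ^ 2) (by norm_num) (by linarith [sq_nonneg si])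
      (by linarith [sq_nonneg si])
    have : (1 - 2 * si ^ 2) * (Bk w i - Bk w e)
        = (1 - 2 * si ^ 2) * Bk w i - (1 - 2 * si ^ 2) * Bk w e := by ring
    rw [this] at ht
    linarith

/-- Case B, other side. -/
lemma stepB_switch (hr0 : 0 ≤ r0) (hH : r0 < H) (hη : 0 ≤ η)
    {i : ℕ} {f O : Bool → ℕ} {ρ : Bool → ℝ} {b b0 : Bool} {e n : ℕ} {S : ℝ}
    (h : St w H r0 η G i f O ρ b b0 e n S) (hfa : f (!b) ≤ G)
    (hc : cov H r0 η (!b) (f (!b)) (w i)) :
    ∃ f' O' ρ' S', St w H r0 η G (i + 1) f' O' ρ' (!b) b0 i (n + 1) S' := by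
  obtain ⟨g, h1, h2, h3, h4⟩ := stepB_local hr0 hH hη h.c1 h.c2 h.c3 hfa hc
  have hei : e ≤ i := by rw [← h.oe]; exact (h.oi b).le
  set hh := hf H r0 (!b) (w i) with hhdef
  have hh0 : 0 ≤ hh := hf_nonneg _ _ _ _
  refine ⟨Function.update f (!b) g, Function.update O (!b) i,
    Function.update ρ (!b) ((w i).re + hh), S + (ρ b - ((w i).re - hh)), h1, h2, h3,
    fun c => ?_, fun c => ?_,
    fun c => ?_, upd_same _ _ _, ?_, ?_, ?_, fun si ga hsi hga hs => ?_⟩
  · rcases eq_or_not (!b) c with rfl | rfl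
    · rw [upd_same]; omega
    · rw [upd_not]; exact (h.oi _).trans (Nat.lt_succ_self _)
  · rcases eq_or_not (!b) c with rfl | rfl
    · rw [upd_same, upd_same]
      linarith
    · rw [upd_not, upd_not]; exact h.rx _
  · rcases eq_or_not (!b) c with rfl | rfl
    · rw [upd_same, upd_same, upd_same]; exact h4
    · rw [upd_not, upd_not, upd_not]; exact h.loss _
  · rw [upd_same]; exact touch_right hc
  · have := h.par
    rw [Nat.even_add_one, this]
    cases b <;> cases b0 <;> simp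
  · rw [upd_not, upd_not, upd_same, Bool.not_not]
    have hp := h.prog
    -- the loss is paid by forward travel below the record
    have hRo : R w (O b) ≤ R w i := R_mono w (h.oi b).le
    have key : (w i).re - hh - ρ (!b) ≤ η + 2 * (R w i - R w (O (!b))) := by
      have hg := R_gain w (h.oi (!b)).le
      have hmono := R_mono w (h.oi (!b)).le
      have hrx := h.rx (!b)
      rcases le_total (w i).re (X w (O (!b))) with h5 | h5
      · rw [min_eq_left h5] at hg
        linarith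
      · rw [min_eq_right h5] at hg
        have hl := h.loss (!b)
        have h6 := (cov_iff (cov_im hc)).1 hc
        have h7 := (abs_le.1 h6).2
        linarith
    push_cast
    have : (n + 1 : ℝ) * η = n * η + η := by ring
    rw [this]
    linarith
  · have hm := h.main si ga hsi hga hs
    have ht := tele w hei (1 - 2 * si ^ 2) (-(2 * sg b * si * ga)) (1 - 2 * si ^ 2) (by
        have : ga ^ 2 = 1 - si ^ 2 := by linarith
        have e1 : (1 - 2 * si ^ 2) ^ 2 + (-(2 * sg b * si * ga)) ^ 2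
          = (1 - 2 * si ^ 2) ^ 2 + 4 * sg b ^ 2 * si ^ 2 * ga ^ 2 := by ring
        rw [e1, sg_sq, this]; ring) (by linarith [sq_nonneg si]) le_rfl
    have htr := h.touch
    have htl := touch_left hc
    rw [← hhdef] at htl
    rw [sg_not] at htl
    have hsw := switch H r0 (sg b) (w e).re (ρ b) (w i).re (w i).im ((w i).re - hh) si ga hr0
      (sg_sq b) hsi hga (y := (w e).im) htr htl
    have e2 : (1 - 2 * si ^ 2) * (Bk w i - Bk w e)
        = (1 - 2 * si ^ 2) * Bk w i - (1 - 2 * si ^ 2) * Bk w e := by ring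
    rw [e2] at ht
    have e3 : 2 * si ^ 2 * (S + (ρ b - ((w i).re - hh)))
        = 2 * si ^ 2 * S + 2 * si ^ 2 * (ρ b - ((w i).re - hh)) := by ring
    have e4 : 4 * ((n + 1 : ℕ) : ℝ) * si * (H * ga - r0)
        = 4 * n * si * (H * ga - r0) + 4 * si * (H * ga - r0) := by push_cast; ring
    rw [e3, e4]
    linarith

/-- the first event -/
lemma first (hr0 : 0 ≤ r0) (hH : r0 < H) (hη : 0 ≤ η) (hw0 : (w 0).re ≤ -1)
    {i : ℕ} (h : St0 w H r0 η i) {a : Bool} (hc : cov H r0 η a 0 (w i)) :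
    ∃ f' O' ρ', St w H r0 η G (i + 1) f' O' ρ' a a i 0 0 := by
  obtain ⟨g, h1, h2, h3, h4⟩ := stepB_local (G := G) (f := fun _ => 0) (a := a) hr0 hH hη
    (fun _ k hk => absurd hk (Nat.not_lt_zero k)) (fun c _ j hj => h.c2 c j hj)
    (fun _ => Nat.zero_le _) (Nat.zero_le _) hc
  have hst : ∀ c, -1 ≤ st c := by intro c; cases c <;> simp [st]; norm_num
  refine ⟨_, Function.update (fun _ => 0) a i,
    Function.update (fun c => st c) a ((w i).re + hf H r0 a (w i)), h1, h2, h3,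
    fun c => ?_, fun c => ?_,
    fun c => ?_, upd_same _ _ _, ?_, ?_, ?_, fun si ga hsi hga hs => ?_⟩
  · rcases eq_or_not a c with rfl | rfl
    · rw [upd_same]; omega
    · rw [upd_not]; omega
  · rcases eq_or_not a c with rfl | rfl
    · rw [upd_same, upd_same]
      have := hf_nonneg H r0 c (w i)
      linarith
    · rw [upd_not, upd_not]; exact hw0.trans (hst _)
  · rcases eq_or_not a c with rfl | rfl
    · rw [upd_same, upd_same, upd_same]; exact h4
    · rw [upd_not, upd_not, upd_not, X_zero]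
      simp
      exact hη
  · rw [upd_same]; exact touch_right hc
  · simp
  · rw [upd_not, upd_not, upd_same, R_zero]
    have := R_nonneg w i
    push_cast
    linarith
  · have ht := tele w (Nat.zero_le i) 1 0 (1 - 2 * si ^ 2) (by norm_num)
      (by linarith [sq_nonneg si]) (by linarith [sq_nonneg si])
    rw [Bk_zero, L_zero] at ht
    push_cast
    linarith

/-- the sweep -/
lemma sweep (hr0 : 0 ≤ r0) (hH : r0 < H) (hη : 0 ≤ η) (hw0 : (w 0).re ≤ -1) (i : ℕ) :
    St0 w H r0 η i ∨ ∃ f O ρ b b0 e n S, St w H r0 η G i f O ρ b b0 e n S := by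
  induction i with
  | zero => exact Or.inl ⟨fun _ j hj => absurd hj (Nat.not_lt_zero j)⟩
  | succ i ih =>
    rcases ih with h | ⟨f, O, ρ, b, b0, e, n, S, h⟩
    · by_cases hc : ∃ a, cov H r0 η a 0 (w i)
      · obtain ⟨a, hc⟩ := hc
        obtain ⟨f', O', ρ', h'⟩ := first (G := G) hr0 hH hη hw0 h hc
        exact Or.inr ⟨f', O', ρ', _, _, _, _, _, h'⟩
      · push Not at hc
        left
        refine ⟨fun a j hj => ?_⟩
        rcases Nat.lt_succ_iff_lt_or_eq.1 hj with h1 | h1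
        · exact h.c2 a j h1
        · rw [h1]; exact hc a
    · right
      by_cases hc : ∃ a, f a ≤ G ∧ cov H r0 η a (f a) (w i)
      · obtain ⟨a, ha, hc⟩ := hc
        rcases eq_or_not b a with rfl | rfl
        · obtain ⟨f', O', ρ', h'⟩ := stepB_same hr0 hH hη h ha hc
          exact ⟨f', O', ρ', _, _, _, _, _, h'⟩
        · obtain ⟨f', O', ρ', S', h'⟩ := stepB_switch hr0 hH hη h ha hc
          exact ⟨f', O', ρ', _, _, _, _, _, h'⟩
      · push Not at hc
        exact ⟨f, O, ρ, b, b0, e, n, S, stepA h hc⟩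

/-- **Main lower bound for chains.** -/
theorem chain_bound (hr0 : 0 ≤ r0) (hH : r0 < H) (hη : 0 ≤ η) (hG : G * η = 3 / 2)
    (hw0 : (w 0).re ≤ -1) (N : ℕ)
    (hcov : ∀ a, ∀ k ≤ G, ∃ j ≤ N, cov H r0 η a k (w j)) :
    ∃ (n : ℕ) (S0 : ℝ), (S0 = 1 ∧ Odd n ∨ S0 = 3 / 2) ∧
      ∀ si ga : ℝ, 0 ≤ si → si ^ 2 + ga ^ 2 = 1 → 10 * si ^ 2 ≤ 1 →
        (w N).re - (w 0).re + 2 * si ^ 2 * (S0 - n * η) + 4 * n * si * (H * ga - r0)
          ≤ L w N := by
  rcases sweep (G := G) hr0 hH hη hw0 (N + 1) with h | ⟨f, O, ρ, b, b0, e, n, S, h⟩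
  · exfalso
    obtain ⟨j, hj, hc⟩ := hcov true 0 (Nat.zero_le _)
    exact h.c2 true j (by omega) hc
  · have hf : ∀ a, f a = G + 1 := by
      intro a
      by_contra hne
      have h1 : f a ≤ G := by have := h.c3 a; omega
      obtain ⟨j, hj, hc⟩ := hcov a (f a) h1
      exact h.c2 a h1 j (by omega) hc
    have hON : ∀ a, Bk w (O a) ≤ Bk w N := fun a => Bk_mono w (Nat.lt_succ_iff.1 (h.oi a))
    have heN : e ≤ N := by rw [← h.oe]; exact Nat.lt_succ_iff.1 (h.oi b)
    have hBN : 0 ≤ Bk w N := by rw [← Bk_zero w]; exact Bk_mono w (Nat.zero_le N)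
    have hS : st (!b) - st (!b0) + 3 / 2 - 4 * Bk w N - n * η ≤ S := by
      have hp := h.prog
      have hl := h.loss (!b)
      rw [hf] at hl
      have e1 : ((G + 1 : ℕ) : ℝ) * η = 3 / 2 + η := by push_cast; rw [add_mul, hG, one_mul]
      rw [e1] at hl
      have h1 := R_le_Bk w (O b)
      have h2 := hON b
      have h3 := hON (!b)
      have h4 : R w (O (!b)) = Bk w (O (!b)) - (X w (O (!b)) - (w (O (!b))).re) := rfl
      linarith
    have hmain : ∀ S1 : ℝ, S1 - 4 * Bk w N - n * η ≤ S → ∀ si ga : ℝ, 0 ≤ si →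
        si ^ 2 + ga ^ 2 = 1 → 10 * si ^ 2 ≤ 1 →
        (w N).re - (w 0).re + 2 * si ^ 2 * (S1 - n * η) + 4 * n * si * (H * ga - r0)
          ≤ L w N := by
      intro S1 hS1 si ga hsi hga hs
      have hm := h.main si ga hsi hga hs
      have ht := tele w heN 1 0 (1 - 2 * si ^ 2) (by norm_num)
        (by linarith [sq_nonneg si]) (by linarith [sq_nonneg si])
      have e2 : (1 - 2 * si ^ 2) * (Bk w N - Bk w e)
        = (1 - 2 * si ^ 2) * Bk w N - (1 - 2 * si ^ 2) * Bk w e := by ring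
      rw [e2] at ht
      have h5 : 2 * si ^ 2 * (S1 - 4 * Bk w N - n * η) ≤ 2 * si ^ 2 * S :=
        mul_le_mul_of_nonneg_left hS1 (by positivity)
      have h6 : 0 ≤ (1 - 10 * si ^ 2) * Bk w N := mul_nonneg (by linarith) hBN
      have e3 : 2 * si ^ 2 * (S1 - 4 * Bk w N - n * η) + (1 - 2 * si ^ 2) * Bk w N
        = 2 * si ^ 2 * (S1 - n * η) + (1 - 10 * si ^ 2) * Bk w N := by ring
      linarith
    by_cases hbb : b = b0
    · refine ⟨n, 3 / 2, Or.inr rfl, hmain _ ?_⟩
      rw [hbb] at hS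
      linarith
    · have hodd : Odd n := by
        rw [← Nat.not_even_iff_odd]
        intro he
        exact hbb (h.par.1 he)
      cases b <;> cases b0
      · exact absurd rfl hbb
      · refine ⟨n, 1, Or.inl ⟨rfl, hodd⟩, hmain _ ?_⟩
        simp [st] at hS
        linarith
      · refine ⟨n, 3 / 2, Or.inr rfl, hmain _ ?_⟩
        simp [st] at hS
        linarith
      · exact absurd rfl hbb

end

end Pool.Agent.LawnInt
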