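import Pool.Agent.LawnZig.Defs
import Pool.Agent.LawnInt.State

/-!
# Sampling a polygonal curve
-/

namespace Pool.Agent.LawnInt

open Finset Pool.Agent.LawnZig

lemma L_add (w : ℕ → ℂ) (i j : ℕ) :
    L w (i + j) = L w i + ∑ k ∈ range j, dist (w (i + k)) (w (i + k + 1)) := by
  unfold L
  rw [Finset.sum_range_add]

lemma dist_le_L (w : ℕ → ℂ) {i j : ℕ} (h : i ≤ j) : dist (w i) (w j) ≤ L w j - L w i := by
  induction j, h using Nat.le_induction with
  | base => simp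
  | succ j _ ih =>
    rw [L_succ]
    have := dist_triangle (w i) (w j) (w (j + 1))
    linarith

lemma L_mono (w : ℕ → ℂ) {i j : ℕ} (h : i ≤ j) : L w i ≤ L w j := by
  have := dist_le_L w h
  have := dist_nonneg (x := w i) (y := w j)
  linarith

/-- the sampled curve -/
noncomputable def smp (v : ℕ → ℂ) (Q : ℕ) (t : ℕ) : ℂ :=
  AffineMap.lineMap (v (t / Q)) (v (t / Q + 1)) (((t % Q : ℕ) : ℝ) / Q)

lemma smp_eq (v : ℕ → ℂ) (Q : ℕ) (hQ : 0 < Q) (i j : ℕ) (hj : j ≤ Q) :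
    smp v Q (i * Q + j) = AffineMap.lineMap (v i) (v (i + 1)) ((j : ℝ) / Q) := by
  have hQR : (Q : ℝ) ≠ 0 := by positivity
  rcases Nat.eq_or_lt_of_le hj with h | h
  · subst h
    have h1 : i * j + j = (i + 1) * j := by ring
    unfold smp
    rw [h1, Nat.mul_div_cancel _ hQ, Nat.mul_mod_left]
    simp [hQR]
  · unfold smp
    have h1 : (i * Q + j) / Q = i := by
      rw [mul_comm, Nat.mul_add_div hQ, Nat.div_eq_of_lt h, add_zero]
    have h2 : (i * Q + j) % Q = j := by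
      rw [Nat.mul_add_mod_self_right, Nat.mod_eq_of_lt h]
    rw [h1, h2]

lemma smp_L (v : ℕ → ℂ) (Q : ℕ) (hQ : 0 < Q) (m : ℕ) : L (smp v Q) (m * Q) = len m v := by
  have hQR : (Q : ℝ) ≠ 0 := by positivity
  induction m with
  | zero => simp [L, len]
  | succ m ih =>
    rw [add_mul, one_mul, L_add, ih]
    unfold len
    rw [Finset.sum_range_succ]
    congr 1
    have : ∀ k ∈ range Q, dist (smp v Q (m * Q + k)) (smp v Q (m * Q + k + 1))
        = dist (v m) (v (m + 1)) / Q := by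
      intro k hk
      have hk' := mem_range.1 hk
      rw [smp_eq v Q hQ m k hk'.le, add_assoc, smp_eq v Q hQ m (k + 1) hk',
        dist_lineMap_lineMap]
      have : dist ((k : ℝ) / Q) (((k + 1 : ℕ) : ℝ) / Q) = 1 / Q := by
        rw [Real.dist_eq]
        have : (k : ℝ) / Q - ((k + 1 : ℕ) : ℝ) / Q = -(1 / Q) := by
          push_cast; ring
        rw [this, abs_neg, abs_of_pos (by positivity)]
      rw [this]; ring
    rw [Finset.sum_congr rfl this, Finset.sum_const, card_range, nsmul_eq_mul]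
    field_simp

lemma smp_near (v : ℕ → ℂ) (Q : ℕ) (hQ : 0 < Q) (m : ℕ) (i : ℕ) (hi : i < m) (z : ℂ)
    (hz : z ∈ segment ℝ (v i) (v (i + 1))) :
    ∃ j ≤ m * Q, dist z (smp v Q j) ≤ dist (v i) (v (i + 1)) / Q := by
  have hQR : (0 : ℝ) < Q := by positivity
  rw [segment_eq_image_lineMap] at hz
  obtain ⟨t, ⟨ht0, ht1⟩, rfl⟩ := hz
  have h0 : 0 ≤ t * Q := mul_nonneg ht0 hQR.le
  have hf1 : (⌊t * Q⌋₊ : ℝ) ≤ t * Q := Nat.floor_le h0
  have hf2 : t * Q < ⌊t * Q⌋₊ + 1 := Nat.lt_floor_add_one _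
  have hle : ⌊t * Q⌋₊ ≤ Q := by
    have : (⌊t * Q⌋₊ : ℝ) ≤ Q := hf1.trans (by nlinarith)
    exact_mod_cast this
  refine ⟨i * Q + ⌊t * Q⌋₊, ?_, ?_⟩
  · calc i * Q + ⌊t * Q⌋₊ ≤ i * Q + Q := by omega
      _ = (i + 1) * Q := by ring
      _ ≤ m * Q := Nat.mul_le_mul_right _ hi
  · have hdv : dist (v i) (v (i + 1)) / Q = (1 / (Q : ℝ)) * dist (v i) (v (i + 1)) := by ring
    rw [smp_eq v Q hQ i _ hle, dist_lineMap_lineMap, hdv]
    apply mul_le_mul_of_nonneg_right _ dist_nonneg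
    rw [Real.dist_eq]
    have : t - (⌊t * Q⌋₊ : ℝ) / Q = (t * Q - ⌊t * Q⌋₊) / Q := by field_simp
    rw [this, abs_div, abs_of_pos hQR, abs_of_nonneg (by linarith)]
    apply div_le_div_of_nonneg_right _ hQR.le
    linarith

/-- Sampling: a mowing curve of length at most `3` gives chains of length at most `3` whose points
come within `1 + ζ` of every point of the region. -/
lemma sample (P : Set ℂ) (m : ℕ) (v : ℕ → ℂ) (hm : Mows P m v) (hl : len m v ≤ 3) (ζ : ℝ)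
    (hζ : 0 < ζ) :
    ∃ (N : ℕ) (w : ℕ → ℂ), L w N ≤ 3 ∧ ∀ z ∈ P, ∃ j ≤ N, dist z (w j) ≤ 1 + ζ := by
  obtain ⟨Q, hQ⟩ := exists_nat_gt (3 / ζ)
  have hQ0 : (0 : ℝ) < Q := lt_trans (by positivity) hQ
  have hQn : 0 < Q := by exact_mod_cast hQ0
  refine ⟨m * Q, smp v Q, by rw [smp_L v Q hQn]; exact hl, fun z hz => ?_⟩
  obtain ⟨i, hi, p, hp, hd⟩ := hm z hz
  obtain ⟨j, hj, hjd⟩ := smp_near v Q hQn m i hi p hp
  refine ⟨j, hj, ?_⟩
  have h1 : dist (v i) (v (i + 1)) ≤ 3 := by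
    refine le_trans ?_ hl
    unfold len
    exact Finset.single_le_sum (f := fun i => dist (v i) (v (i + 1)))
      (fun _ _ => dist_nonneg) (mem_range.2 hi)
  have h2 : dist (v i) (v (i + 1)) / Q ≤ ζ := by
    rw [div_le_iff₀ hQ0]
    rw [div_lt_iff₀ hζ] at hQ
    linarith
  have := dist_triangle z p (smp v Q j)
  linarith

/-- Reversal of a chain -/
lemma L_rev (w : ℕ → ℂ) (N : ℕ) : L (fun i => w (N - i)) N = L w N := by
  unfold L
  rw [← Finset.sum_range_reflect]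
  apply Finset.sum_congr rfl
  intro k hk
  have hk' := mem_range.1 hk
  have h1 : N - (N - 1 - k) = k + 1 := by omega
  have h2 : N - (N - 1 - k + 1) = k := by omega
  simp only [h1, h2]
  exact dist_comm _ _

/-- Shift of a chain -/
lemma L_shift (w : ℕ → ℂ) (i j : ℕ) : L (fun k => w (i + k)) j = L w (i + j) - L w i := by
  rw [L_add]
  unfold L
  simp only [add_assoc]
  ring

end Pool.Agent.LawnInt
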