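import Pool.Agent.LawnInt.Defs
import Pool.Agent.LawnInt.Sample

/-!
# From a mowing curve to a chain between the two anchors
-/

namespace Pool.Agent.LawnInt

open Finset Pool.Agent.LawnZig

section fam

variable (s c d : ℝ)

lemma vert_mem (i : Fin 6) :
    (⟨fam s c d i 0, fam s c d i 1⟩ : ℂ) ∈ hull (fam s c d) :=
  subset_convexHull ℝ _ ⟨i, rfl⟩

lemma vl_mem : (⟨-(5 / 2 - s ^ 2 - d / 2), s ^ 2 / c⟩ : ℂ) ∈ hull (fam s c d) := by
  simpa [fam] using vert_mem s c d 0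

lemma vr_mem : (⟨5 / 2 - s ^ 2 - d / 2, -(s ^ 2 / c)⟩ : ℂ) ∈ hull (fam s c d) := by
  simpa [fam] using vert_mem s c d 3

lemma side_mem (b : Bool) (r : ℝ) (h1 : st b ≤ r) (h2 : r ≤ st b + 3 / 2) :
    (⟨r, sg b * (1 / c)⟩ : ℂ) ∈ hull (fam s c d) := by
  have hc : Convex ℝ (hull (fam s c d)) := convex_convexHull ℝ _
  cases b
  · simp only [st, Bool.false_eq_true, if_false] at h1 h2
    have h := hc (vert_mem s c d 5) (vert_mem s c d 4) (a := (1 - r) * (2 / 3))
      (b := (r + 1 / 2) * (2 / 3)) (by linarith) (by linarith) (by ring)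
    convert h using 1
    apply Complex.ext
    · simp [fam]; ring
    · simp [fam, sg]; ring
  · simp only [st, if_true] at h1 h2
    have h := hc (vert_mem s c d 1) (vert_mem s c d 2) (a := (1 / 2 - r) * (2 / 3))
      (b := (r + 1) * (2 / 3)) (by linarith) (by linarith) (by ring)
    convert h using 1
    apply Complex.ext
    · simp [fam]; ring
    · simp [fam, sg]; ring

end fam

lemma dist_sq_le {z p : ℂ} {r : ℝ} (h : dist z p ≤ r) :
    (p.re - z.re) ^ 2 + (p.im - z.im) ^ 2 ≤ r ^ 2 := by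
  rw [dist_eq_sqrt] at h
  have h0 : 0 ≤ (p.re - z.re) ^ 2 + (p.im - z.im) ^ 2 := by positivity
  calc (p.re - z.re) ^ 2 + (p.im - z.im) ^ 2
      = Real.sqrt ((p.re - z.re) ^ 2 + (p.im - z.im) ^ 2) ^ 2 := (Real.sq_sqrt h0).symm
    _ ≤ r ^ 2 := pow_le_pow_left₀ (Real.sqrt_nonneg _) h 2

lemma abs_re_le (z p : ℂ) : |p.re - z.re| ≤ dist z p := by
  rw [dist_eq_sqrt]
  apply Real.le_sqrt_of_sq_le
  rw [sq_abs]
  have := sq_nonneg (p.im - z.im)
  linarith

lemma abs_im_le (z p : ℂ) : |p.im - z.im| ≤ dist z p := by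
  rw [dist_eq_sqrt]
  apply Real.le_sqrt_of_sq_le
  rw [sq_abs]
  have := sq_nonneg (p.re - z.re)
  linarith

/-- points far to the left or to the right cover no point of the two long sides -/
lemma far {z p : ℂ} {r0 : ℝ} (hr0 : 0 ≤ r0) (hr : r0 ≤ 101 / 100) (hz : |z.re| ≤ 1)
    (hzi : 1 ≤ |z.im|) (hp : 149 / 100 ≤ |p.re|) (hpi : |p.im| ≤ 3 / 100) : ¬ dist z p ≤ r0 := by
  intro h
  have h1 := dist_sq_le h
  have h2 : r0 ^ 2 ≤ (101 / 100) ^ 2 := pow_le_pow_left₀ hr0 hr 2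
  have h3 : (49 / 100 : ℝ) ^ 2 ≤ (p.re - z.re) ^ 2 := by
    rw [← sq_abs (p.re - z.re)]
    apply pow_le_pow_left₀ (by norm_num)
    have := abs_sub_abs_le_abs_sub p.re z.re
    linarith
  have h4 : (97 / 100 : ℝ) ^ 2 ≤ (p.im - z.im) ^ 2 := by
    rw [← sq_abs (p.im - z.im)]
    apply pow_le_pow_left₀ (by norm_num)
    have := abs_sub_abs_le_abs_sub z.im p.im
    rw [abs_sub_comm] at this
    linarith
  linarith

/-- the height of an anchor -/
lemma anchor_im {s c d ζ : ℝ} (hs0 : 0 < s) (hs : s < 1 / 100) (hc : 0 < c)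
    (hsc : s ^ 2 + c ^ 2 = 1) (hd0 : 0 ≤ d) (hd : d < s ^ 2) (hζ0 : 0 < ζ)
    (hζ : ζ ≤ 1 / 100000) {p : ℂ} {x y : ℝ}
    (hp : dist (⟨x, y⟩ : ℂ) p ≤ 1 + ζ) (hx : 1 - 2 * s ^ 2 - d - ζ ≤ |p.re - x|)
    (hy : |y| = s ^ 2 / c) : |p.im| ≤ 28 / 1000 := by
  have hs2 : s ^ 2 < 1 / 10000 := by
    have : s ^ 2 < (1 / 100) ^ 2 := pow_lt_pow_left₀ hs hs0.le (by norm_num)
    linarith
  have hs20 : 0 < s ^ 2 := by positivity
  have h1 := dist_sq_le hp
  simp only at h1
  have h2 : (1 - 2 * s ^ 2 - d - ζ) ^ 2 ≤ (p.re - x) ^ 2 := by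
    rw [← sq_abs (p.re - x)]
    exact pow_le_pow_left₀ (by linarith) hx 2
  have hd1 : d < 1 / 10000 := by linarith
  have h3 : (p.im - y) ^ 2 ≤ 7 / 10000 := by
    have e1 : (1 + ζ) ^ 2 - (1 - 2 * s ^ 2 - d - ζ) ^ 2
        = (2 * s ^ 2 + d + 2 * ζ) * (2 - (2 * s ^ 2 + d)) := by ring
    have h4 : (2 * s ^ 2 + d + 2 * ζ) * (2 - (2 * s ^ 2 + d))
        ≤ (2 * s ^ 2 + d + 2 * ζ) * 2 :=
      mul_le_mul_of_nonneg_left (by linarith) (by linarith)
    linarith
  have h5 : |p.im - y| ≤ 27 / 1000 := by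
    apply abs_le_of_sq_le_sq _ (by norm_num)
    linarith
  have hc1 : 99 / 100 < c := by
    have : (99 / 100 : ℝ) ^ 2 < c ^ 2 := by
      have : c ^ 2 = 1 - s ^ 2 := by linarith
      rw [this]; linarith
    exact lt_of_pow_lt_pow_left₀ 2 hc.le this
  have h6 : s ^ 2 / c ≤ 1 / 1000 := by
    rw [div_le_iff₀ hc]
    linarith
  have h7 : |p.im| ≤ |p.im - y| + |y| := by
    have := abs_add_le (p.im - y) y
    rwa [sub_add_cancel] at this
  linarith

/-- **From curves to chains.** -/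
lemma chain_of_mow {s c d ζ : ℝ} (hs0 : 0 < s) (hs : s < 1 / 100) (hc : 0 < c)
    (hsc : s ^ 2 + c ^ 2 = 1) (hd0 : 0 ≤ d) (hd : d < s ^ 2) (hζ0 : 0 < ζ)
    (hζ : ζ ≤ 1 / 100000) (hM : Mowable (hull (fam s c d))) :
    ∃ (N : ℕ) (w : ℕ → ℂ), L w N ≤ 3 ∧ (w 0).re ≤ -(3 / 2 - s ^ 2 - d / 2) + ζ ∧
      (3 / 2 - s ^ 2 - d / 2) - ζ ≤ (w N).re ∧
      ∀ (b : Bool) (r : ℝ), st b ≤ r → r ≤ st b + 3 / 2 →
        ∃ j ≤ N, dist (⟨r, sg b * (1 / c)⟩ : ℂ) (w j) ≤ 1 + ζ := by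
  obtain ⟨m, v, hm, hl⟩ := hM
  have hs2 : s ^ 2 < 1 / 10000 := by
    have : s ^ 2 < (1 / 100) ^ 2 := pow_lt_pow_left₀ hs hs0.le (by norm_num)
    linarith
  have hs20 : 0 < s ^ 2 := by positivity
  -- the two anchors, in the right order
  obtain ⟨N, w, j1, j2, h12, h2N, hL, ha1, ha2, hcov⟩ : ∃ (N : ℕ) (w : ℕ → ℂ) (j1 j2 : ℕ),
      j1 ≤ j2 ∧ j2 ≤ N ∧ L w N ≤ 3 ∧
      dist (⟨-(5 / 2 - s ^ 2 - d / 2), s ^ 2 / c⟩ : ℂ) (w j1) ≤ 1 + ζ ∧
      dist (⟨5 / 2 - s ^ 2 - d / 2, -(s ^ 2 / c)⟩ : ℂ) (w j2) ≤ 1 + ζ ∧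
      ∀ z ∈ hull (fam s c d), ∃ j ≤ N, dist z (w j) ≤ 1 + ζ := by
    obtain ⟨N, w, hL, hcov⟩ := sample _ m v hm hl ζ hζ0
    obtain ⟨j1, hj1, hd1⟩ := hcov _ (vl_mem s c d)
    obtain ⟨j2, hj2, hd2⟩ := hcov _ (vr_mem s c d)
    rcases le_total j1 j2 with h | h
    · exact ⟨N, w, j1, j2, h, hj2, hL, hd1, hd2, hcov⟩
    · refine ⟨N, fun i => w (N - i), N - j1, N - j2, by omega, by omega, ?_, ?_, ?_, ?_⟩
      · rw [L_rev]; exact hL
      · have : N - (N - j1) = j1 := by omega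
        simp only [this]; exact hd1
      · have : N - (N - j2) = j2 := by omega
        simp only [this]; exact hd2
      · intro z hz
        obtain ⟨j, hj, hdj⟩ := hcov z hz
        refine ⟨N - j, by omega, ?_⟩
        have : N - (N - j) = j := by omega
        simp only [this]; exact hdj
  have hx1 : (w j1).re ≤ -(3 / 2 - s ^ 2 - d / 2) + ζ := by
    have := (abs_le.1 ((abs_re_le _ _).trans ha1)).2
    simp only at this
    linarith
  have hx2 : (3 / 2 - s ^ 2 - d / 2) - ζ ≤ (w j2).re := by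
    have := (abs_le.1 ((abs_re_le _ _).trans ha2)).1
    simp only at this
    linarith
  have hL12 : (w j2).re - (w j1).re ≤ L w j2 - L w j1 := by
    have h1 := dist_le_L w h12
    have h2 := (abs_le.1 (abs_re_le (w j1) (w j2))).2
    linarith
  have hL0 : 0 ≤ L w j1 := by rw [← L_zero w]; exact L_mono w (Nat.zero_le _)
  have hLN : L w j2 ≤ L w N := L_mono w h2N
  have hdd : d < 1 / 10000 := by linarith
  -- heights of the anchors
  have hi1 : |(w j1).im| ≤ 28 / 1000 := by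
    refine anchor_im hs0 hs hc hsc hd0 hd hζ0 hζ ha1 ?_ (abs_of_nonneg (by positivity))
    apply le_trans _ (le_abs_self _)
    linarith
  have hi2 : |(w j2).im| ≤ 28 / 1000 := by
    have hy2 : |-(s ^ 2 / c)| = s ^ 2 / c := by
      rw [abs_neg]
      exact abs_of_nonneg (by positivity)
    refine anchor_im hs0 hs hc hsc hd0 hd hζ0 hζ ha2 ?_ hy2
    apply le_trans _ (neg_le_abs _)
    linarith
  -- the tails do not matter
  refine ⟨j2 - j1, fun k => w (j1 + k), ?_, ?_, ?_, fun b r h1 h2 => ?_⟩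
  · rw [L_shift]
    have : j1 + (j2 - j1) = j2 := by omega
    rw [this]; linarith
  · simpa using hx1
  · have : j1 + (j2 - j1) = j2 := by omega
    simp only [this]; exact hx2
  · obtain ⟨j, hj, hdj⟩ := hcov _ (side_mem s c d b r h1 h2)
    have hre : |(⟨r, sg b * (1 / c)⟩ : ℂ).re| ≤ 1 := by
      simp only
      rw [abs_le]
      cases b <;> simp [st] at h1 h2 <;> constructor <;> linarith
    have him : 1 ≤ |(⟨r, sg b * (1 / c)⟩ : ℂ).im| := by
      simp only
      have hc1 : c ≤ 1 := by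
        have : c ^ 2 ≤ 1 := by linarith
        exact (abs_le_of_sq_le_sq' (by simpa using this : c ^ 2 ≤ 1 ^ 2) zero_le_one).2
      have h3 : 1 ≤ 1 / c := by rw [le_div_iff₀ hc]; linarith
      have h4 : |sg b| = 1 := by cases b <;> simp [sg]
      rw [abs_mul, h4, one_mul]
      exact h3.trans (le_abs_self _)
    have hr0 : (0 : ℝ) ≤ 1 + ζ := by linarith
    have hr1 : 1 + ζ ≤ 101 / 100 := by linarith
    by_cases hlo : j < j1
    · exfalso
      have h3 := dist_le_L w hlo.le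
      have hLj : 0 ≤ L w j := by rw [← L_zero w]; exact L_mono w (Nat.zero_le _)
      have h4 := (abs_le.1 (abs_re_le (w j) (w j1))).1
      have h5 := abs_im_le (w j) (w j1)
      refine far hr0 hr1 hre him ?_ ?_ hdj
      · apply le_trans _ (neg_le_abs _)
        linarith
      · have h6 : |(w j).im| ≤ |(w j1).im| + |(w j1).im - (w j).im| := by
          have := abs_sub (w j1).im ((w j1).im - (w j).im)
          have e : (w j1).im - ((w j1).im - (w j).im) = (w j).im := by ring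
          rwa [e] at this
        linarith
    · by_cases hhi : j2 < j
      · exfalso
        have h3 := dist_le_L w hhi.le
        have hLj : L w j ≤ L w N := L_mono w hj
        have h4 := (abs_le.1 (abs_re_le (w j2) (w j))).1
        have h5 := abs_im_le (w j2) (w j)
        refine far hr0 hr1 hre him ?_ ?_ hdj
        · apply le_trans _ (le_abs_self _)
          linarith
        · have h6 : |(w j).im| ≤ |(w j2).im| + |(w j).im - (w j2).im| := by
            have := abs_add_le (w j2).im ((w j).im - (w j2).im)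
            rwa [add_sub_cancel] at this
          linarith
      · refine ⟨j - j1, by omega, ?_⟩
        have : j1 + (j - j1) = j := by omega
        simp only [this]; exact hdj

end Pool.Agent.LawnInt
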