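import Mathlib

/-!
# Chains of points: travel, record, and two lower bounds for the length
-/

namespace Pool.Agent.LawnInt

open Finset

section chain

variable (w : ℕ → ℂ)

/-- length of the first `i` steps -/
noncomputable def L (i : ℕ) : ℝ := ∑ k ∈ range i, dist (w k) (w (k + 1))

/-- total backward travel during the first `i` steps -/
noncomputable def Bk (i : ℕ) : ℝ := ∑ k ∈ range i, max 0 ((w k).re - (w (k + 1)).re)

/-- largest abscissa up to time `i` -/
noncomputable def X : ℕ → ℝ
  | 0 => (w 0).re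
  | i + 1 => max (X i) (w (i + 1)).re

/-- forward travel below the record -/
noncomputable def R (i : ℕ) : ℝ := Bk w i - (X w i - (w i).re)

lemma X_zero : X w 0 = (w 0).re := rfl

lemma X_succ (i : ℕ) : X w (i + 1) = max (X w i) (w (i + 1)).re := rfl

lemma Bk_zero : Bk w 0 = 0 := by simp [Bk]

lemma Bk_succ (i : ℕ) : Bk w (i + 1) = Bk w i + max 0 ((w i).re - (w (i + 1)).re) := by
  unfold Bk; rw [sum_range_succ]

lemma L_succ (i : ℕ) : L w (i + 1) = L w i + dist (w i) (w (i + 1)) := by
  unfold L; rw [sum_range_succ]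

lemma L_zero : L w 0 = 0 := by simp [L]

lemma Bk_mono {p q : ℕ} (h : p ≤ q) : Bk w p ≤ Bk w q := by
  induction q, h using Nat.le_induction with
  | base => exact le_rfl
  | succ q _ ih =>
    rw [Bk_succ]
    have := le_max_left 0 ((w q).re - (w (q + 1)).re)
    linarith

lemma re_le_X (i : ℕ) : (w i).re ≤ X w i := by
  cases i with
  | zero => exact le_rfl
  | succ i => exact le_max_right _ _

lemma X_mono {p q : ℕ} (h : p ≤ q) : X w p ≤ X w q := by
  induction q, h using Nat.le_induction with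
  | base => exact le_rfl
  | succ q _ ih => exact ih.trans (le_max_left _ _)

lemma re_le_X' {k i : ℕ} (h : k ≤ i) : (w k).re ≤ X w i := (re_le_X w k).trans (X_mono w h)

lemma R_zero : R w 0 = 0 := by simp [R, Bk_zero, X_zero]

lemma R_succ (i : ℕ) :
    R w (i + 1) = R w i + max 0 (min (w (i + 1)).re (X w i) - (w i).re) := by
  have h := re_le_X w i
  unfold R
  rw [Bk_succ, X_succ]
  rcases le_total (w (i + 1)).re (X w i) with h1 | h1
  · rw [min_eq_left h1, max_eq_left h1]
    rcases le_total (w i).re (w (i + 1)).re with h2 | h2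
    · rw [max_eq_left (by linarith), max_eq_right (by linarith)]; ring
    · rw [max_eq_right (by linarith), max_eq_left (by linarith)]; ring
  · rw [min_eq_right h1, max_eq_right h1, max_eq_left (by linarith), max_eq_right (by linarith)]
    ring

lemma R_mono {p q : ℕ} (h : p ≤ q) : R w p ≤ R w q := by
  induction q, h using Nat.le_induction with
  | base => exact le_rfl
  | succ q _ ih =>
    rw [R_succ]
    have := le_max_left 0 (min (w (q + 1)).re (X w q) - (w q).re)
    linarith

lemma R_nonneg (i : ℕ) : 0 ≤ R w i := by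
  rw [← R_zero w]; exact R_mono w (Nat.zero_le i)

lemma R_le_Bk (i : ℕ) : R w i ≤ Bk w i := by
  have := re_le_X w i
  unfold R; linarith

lemma R_gain {p q : ℕ} (h : p ≤ q) : min (w q).re (X w p) - (w p).re ≤ R w q - R w p := by
  induction q, h using Nat.le_induction with
  | base =>
    have := min_le_left (w p).re (X w p)
    linarith
  | succ q hq ih =>
    rw [R_succ]
    have hX := X_mono w hq
    have h1 := le_max_left 0 (min (w (q + 1)).re (X w q) - (w q).re)
    have h2 := le_max_right 0 (min (w (q + 1)).re (X w q) - (w q).re)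
    rcases le_total (w q).re (X w p) with h3 | h3
    · rw [min_eq_left h3] at ih
      have h4 : min (w (q + 1)).re (X w p) ≤ min (w (q + 1)).re (X w q) :=
        min_le_min le_rfl hX
      linarith
    · rw [min_eq_right h3] at ih
      have h4 := min_le_right (w (q + 1)).re (X w p)
      linarith

lemma cs (a b x y : ℝ) (h : a ^ 2 + b ^ 2 = 1) : a * x + b * y ≤ Real.sqrt (x ^ 2 + y ^ 2) := by
  apply Real.le_sqrt_of_sq_le
  have e : x ^ 2 + y ^ 2 = (a * x + b * y) ^ 2 + (a * y - b * x) ^ 2 := by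
    have : (a * x + b * y) ^ 2 + (a * y - b * x) ^ 2 = (a ^ 2 + b ^ 2) * (x ^ 2 + y ^ 2) := by ring
    rw [this, h, one_mul]
  rw [e]
  have := sq_nonneg (a * y - b * x)
  linarith

lemma dist_eq_sqrt (z z' : ℂ) :
    dist z z' = Real.sqrt ((z'.re - z.re) ^ 2 + (z'.im - z.im) ^ 2) := by
  rw [Complex.dist_eq, Complex.norm_def, Complex.normSq_apply, Complex.sub_re, Complex.sub_im]
  congr 1; ring

lemma step (z z' : ℂ) (a b c : ℝ) (h : a ^ 2 + b ^ 2 = 1) (hc : 0 ≤ c) (hca : c ≤ a) :
    a * (z'.re - z.re) + b * (z'.im - z.im) + c * max 0 (z.re - z'.re) ≤ dist z z' := by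
  rw [dist_eq_sqrt]
  rcases le_total z.re z'.re with h1 | h1
  · rw [max_eq_left (by linarith), mul_zero, add_zero]
    exact cs a b _ _ h
  · rw [max_eq_right (by linarith)]
    have h2 : a * (z'.re - z.re) + c * (z.re - z'.re) ≤ 0 := by
      have : a * (z'.re - z.re) + c * (z.re - z'.re) = -((a - c) * (z.re - z'.re)) := by ring
      rw [this]
      have := mul_nonneg (sub_nonneg.2 hca) (sub_nonneg.2 h1)
      linarith
    have h3 : b * (z'.im - z.im) ≤ |z'.im - z.im| := by
      have hb : |b| ≤ 1 := by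
        rw [← sq_le_one_iff_abs_le_one]
        have := sq_nonneg a
        linarith
      calc b * (z'.im - z.im) ≤ |b * (z'.im - z.im)| := le_abs_self _
        _ = |b| * |z'.im - z.im| := abs_mul _ _
        _ ≤ 1 * |z'.im - z.im| := by gcongr
        _ = _ := one_mul _
    have h4 : |z'.im - z.im| ≤ Real.sqrt ((z'.re - z.re) ^ 2 + (z'.im - z.im) ^ 2) := by
      apply Real.le_sqrt_of_sq_le
      rw [sq_abs]
      have := sq_nonneg (z'.re - z.re)
      linarith
    linarith

lemma tele {p q : ℕ} (hpq : p ≤ q) (a b c : ℝ) (h : a ^ 2 + b ^ 2 = 1) (hc : 0 ≤ c)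
    (hca : c ≤ a) :
    a * ((w q).re - (w p).re) + b * ((w q).im - (w p).im) + c * (Bk w q - Bk w p)
      ≤ L w q - L w p := by
  induction q, hpq using Nat.le_induction with
  | base => simp
  | succ q _ ih =>
    rw [Bk_succ, L_succ]
    have h1 := step (w q) (w (q + 1)) a b c h hc hca
    have e : a * ((w (q + 1)).re - (w p).re) + b * ((w (q + 1)).im - (w p).im)
        + c * (Bk w q + max 0 ((w q).re - (w (q + 1)).re) - Bk w p)
        = (a * ((w q).re - (w p).re) + b * ((w q).im - (w p).im) + c * (Bk w q - Bk w p))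
          + (a * ((w (q + 1)).re - (w q).re) + b * ((w (q + 1)).im - (w q).im)
            + c * max 0 ((w q).re - (w (q + 1)).re)) := by ring
    rw [e]
    linarith

end chain

/-- passing from one side to the other -/
lemma switch (H r0 sg x y r x' y' q si ga : ℝ) (hr0 : 0 ≤ r0) (hsg : sg ^ 2 = 1)
    (hsi : 0 ≤ si) (hga : si ^ 2 + ga ^ 2 = 1)
    (h1 : (x - r) ^ 2 + (H - sg * y) ^ 2 ≤ r0 ^ 2)
    (h2 : (x' - q) ^ 2 + (H - -sg * y') ^ 2 ≤ r0 ^ 2) :
    (x' - x) + 2 * si ^ 2 * (r - q) + 4 * si * (H * ga - r0) ≤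
      (1 - 2 * si ^ 2) * (x' - x) + (-(2 * sg * si * ga)) * (y' - y) := by
  have k1 : -si * (x - r) + ga * (H - sg * y) ≤ r0 := by
    have := cs (-si) ga (x - r) (H - sg * y) (by rw [neg_sq]; exact hga)
    refine this.trans (Real.sqrt_le_iff.2 ⟨hr0, h1⟩)
  have k2 : si * (x' - q) + ga * (H - -sg * y') ≤ r0 := by
    have := cs si ga (x' - q) (H - -sg * y') hga
    refine this.trans (Real.sqrt_le_iff.2 ⟨hr0, h2⟩)
  have e : (1 - 2 * si ^ 2) * (x' - x) + (-(2 * sg * si * ga)) * (y' - y)
      - ((x' - x) + 2 * si ^ 2 * (r - q) + 4 * si * (H * ga - r0))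
      = 2 * si * (r0 - (-si * (x - r) + ga * (H - sg * y)))
        + 2 * si * (r0 - (si * (x' - q) + ga * (H - -sg * y'))) := by ring
  have m1 := mul_nonneg (mul_nonneg (by norm_num : (0 : ℝ) ≤ 2) hsi) (sub_nonneg.2 k1)
  have m2 := mul_nonneg (mul_nonneg (by norm_num : (0 : ℝ) ≤ 2) hsi) (sub_nonneg.2 k2)
  linarith

end Pool.Agent.LawnInt
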