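import Pool.Agent.LawnInt.Upper

/-!
# The zigzag curve mows the hexagon
-/

namespace Pool.Agent.LawnInt

open Finset Pool.Agent.LawnZig

lemma pick (n : ℕ) (hodd : Odd n) (θ : ℝ) (h0 : 0 ≤ θ) (h1 : θ ≤ n) (r : ℕ) (hr : r < 2) :
    ∃ p ≤ n, p % 2 = r ∧ (p : ℝ) - 1 ≤ θ ∧ θ ≤ p + 1 := by
  have hf1 : (⌊θ⌋₊ : ℝ) ≤ θ := Nat.floor_le h0
  have hf2 : θ < ⌊θ⌋₊ + 1 := Nat.lt_floor_add_one _
  have hle : ⌊θ⌋₊ ≤ n := by
    have : (⌊θ⌋₊ : ℝ) ≤ n := hf1.trans h1
    exact_mod_cast this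
  have hn := Nat.odd_iff.1 hodd
  by_cases h2 : ⌊θ⌋₊ % 2 = r
  · exact ⟨_, hle, h2, by linarith, hf2.le⟩
  · by_cases h3 : ⌊θ⌋₊ + 1 ≤ n
    · refine ⟨_, h3, by omega, ?_, ?_⟩
      · push_cast; linarith
      · push_cast; linarith
    · have h4 : ⌊θ⌋₊ = n := by omega
      refine ⟨n - 1, by omega, by omega, ?_, ?_⟩
      · have : ((n - 1 : ℕ) : ℝ) = n - 1 := by rw [Nat.cast_sub (by omega)]; simp
        rw [this]
        have : (⌊θ⌋₊ : ℝ) = n := by rw [h4]
        linarith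
      · have : ((n - 1 : ℕ) : ℝ) = n - 1 := by rw [Nat.cast_sub (by omega)]; simp
        rw [this]; linarith

/-- the inequalities of the hexagon -/
lemma ineqs {s c d : ℝ} (hs0 : 0 < s) (hs : s < 1 / 100) (hd0 : 0 ≤ d) (hd : d < s ^ 2)
    {H M : ℝ} (hHdef : 1 / c = H) (hMdef : s ^ 2 / c = M)
    (hH : 1 ≤ H) (hH2 : H ≤ 1001 / 1000) (hM0 : 0 ≤ M) (hM : M ≤ 1 / 1000) :
    ∀ z ∈ hull (fam s c d), (z.im ≤ H ∧ -H ≤ z.im) ∧
      ((2 - s ^ 2 - d / 2) * (H - z.im) ≥ (H + M) * (z.re - 1 / 2) ∧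
        (3 / 2 - s ^ 2 - d / 2) * (z.im + H) ≥ (H - M) * (z.re - 1) ∧
        z.re ≤ 5 / 2 - s ^ 2 - d / 2) ∧
      ((2 - s ^ 2 - d / 2) * (H - -z.im) ≥ (H + M) * (-z.re - 1 / 2) ∧
        (3 / 2 - s ^ 2 - d / 2) * (-z.im + H) ≥ (H - M) * (-z.re - 1) ∧
        -z.re ≤ 5 / 2 - s ^ 2 - d / 2) := by
  have hs2 : s ^ 2 < 1 / 10000 := by
    have : s ^ 2 < (1 / 100) ^ 2 := pow_lt_pow_left₀ hs hs0.le (by norm_num)
    linarith
  have hs20 : 0 < s ^ 2 := by positivity
  set D := s ^ 2 + d / 2 with hD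
  have hD0 : 0 ≤ D := by rw [hD]; linarith
  have hD1 : D ≤ 2 / 10000 := by rw [hD]; linarith
  have eA : 5 / 2 - s ^ 2 - d / 2 = 5 / 2 - D := by rw [hD]; ring
  have eB : 2 - s ^ 2 - d / 2 = 2 - D := by rw [hD]; ring
  have eC : 3 / 2 - s ^ 2 - d / 2 = 3 / 2 - D := by rw [hD]; ring
  have p1 : 0 ≤ H * D := mul_nonneg (by linarith) hD0
  have p2 : 0 ≤ M * D := mul_nonneg hM0 hD0
  have p3 : H * D ≤ 2 / 1000 := by
    calc H * D ≤ (1001 / 1000) * (2 / 10000) := mul_le_mul hH2 hD1 hD0 (by norm_num)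
      _ ≤ 2 / 1000 := by norm_num
  have p4 : M * D ≤ 2 / 1000 := by
    calc M * D ≤ (1 / 1000) * (2 / 10000) := mul_le_mul hM hD1 hD0 (by norm_num)
      _ ≤ 2 / 1000 := by norm_num
  intro z hz
  rw [eA, eB, eC]
  have key : ∀ al be ga : ℝ, (al * (-(5 / 2 - D)) + be * M ≤ ga) → (al * (-1) + be * H ≤ ga) →
      (al * (1 / 2) + be * H ≤ ga) → (al * (5 / 2 - D) + be * (-M) ≤ ga) →
      (al * 1 + be * (-H) ≤ ga) → (al * (-(1 / 2)) + be * (-H) ≤ ga) →
      al * z.re + be * z.im ≤ ga := by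
    intro al be ga h1 h2 h3 h4 h5 h6
    refine hull_le al be ga (fun i => ?_) z hz
    unfold fam
    rw [hHdef, hMdef, eA]
    fin_cases i
    exacts [h1, h2, h3, h4, h5, h6]
  have k1 := key 0 1 H (by linarith) (by linarith) (by linarith) (by linarith) (by linarith)
    (by linarith)
  have k2 := key 0 (-1) H (by linarith) (by linarith) (by linarith) (by linarith) (by linarith)
    (by linarith)
  have k3 := key (H + M) (2 - D) ((2 - D) * H + (H + M) / 2) (by linarith) (by linarith)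
    (by linarith) (by linarith) (by linarith) (by linarith)
  have k4 := key (H - M) (-(3 / 2 - D)) ((3 / 2 - D) * H + (H - M)) (by linarith) (by linarith)
    (by linarith) (by linarith) (by linarith) (by linarith)
  have k5 := key 1 0 (5 / 2 - D) (by linarith) (by linarith) (by linarith) (by linarith)
    (by linarith) (by linarith)
  have k6 := key (-(H + M)) (-(2 - D)) ((2 - D) * H + (H + M) / 2) (by linarith) (by linarith)
    (by linarith) (by linarith) (by linarith) (by linarith)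
  have k7 := key (-(H - M)) (3 / 2 - D) ((3 / 2 - D) * H + (H - M)) (by linarith) (by linarith)
    (by linarith) (by linarith) (by linarith) (by linarith)
  have k8 := key (-1) 0 (5 / 2 - D) (by linarith) (by linarith) (by linarith) (by linarith)
    (by linarith) (by linarith)
  refine ⟨⟨by linarith, by linarith⟩, ⟨by linarith, by linarith, by linarith⟩,
    ⟨by linarith, by linarith, by linarith⟩⟩

/-- **The zigzag curve mows the hexagon.** -/
theorem crv_mows {s c d : ℝ} (hs0 : 0 < s) (hs : s < 1 / 100) (hc0 : 0 < c)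
    (hsc : s ^ 2 + c ^ 2 = 1) (hd0 : 0 ≤ d) (hd : d < s ^ 2) {n : ℕ} (hodd : Odd n)
    (hns : n * s ≤ 1) :
    Mows (hull (fam s c d)) (2 * n + 1) (crv s (s ^ 2 / c) (3 / 2 - s ^ 2 - d / 2) n) := by
  have hs2 : s ^ 2 < 1 / 10000 := by
    have : s ^ 2 < (1 / 100) ^ 2 := pow_lt_pow_left₀ hs hs0.le (by norm_num)
    linarith
  have hs20 : 0 < s ^ 2 := by positivity
  have hc1 : c < 1 := by
    have : c ^ 2 < 1 := by linarith
    exact (abs_lt_of_sq_lt_sq' (by simpa using this : c ^ 2 < 1 ^ 2) zero_le_one).2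
  have hc : 999 / 1000 < c := by
    have : (999 / 1000 : ℝ) ^ 2 < c ^ 2 := by
      have : c ^ 2 = 1 - s ^ 2 := by linarith
      rw [this]; linarith
    exact lt_of_pow_lt_pow_left₀ 2 hc0.le this
  obtain ⟨H, hHdef⟩ : ∃ H, 1 / c = H := ⟨_, rfl⟩
  obtain ⟨M, hMdef⟩ : ∃ M, s ^ 2 / c = M := ⟨_, rfl⟩
  have hHM : H - M = c := by
    rw [← hHdef, ← hMdef]
    have : s ^ 2 = 1 - c ^ 2 := by linarith
    rw [this]; field_simp; ring
  have hM0 : 0 ≤ M := by rw [← hMdef]; positivity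
  have hM : M ≤ 2 / 10000 := by
    rw [← hMdef, div_le_iff₀ hc0]; linarith
  have hH : 1 ≤ H := by rw [← hHdef, le_div_iff₀ hc0]; linarith
  have hH2 : H ≤ 1001 / 1000 := by linarith
  have hn : 0 < n := hodd.pos
  have hnR : (0 : ℝ) < n := by exact_mod_cast hn
  obtain ⟨a2, ha2⟩ : ∃ a2, 3 / 2 - s ^ 2 - d / 2 = a2 := ⟨_, rfl⟩
  have hss : s ^ 2 ≤ s / 100 := by
    have : s * s ≤ s * (1 / 100) := mul_le_mul_of_nonneg_left hs.le hs0.le
    have e : s ^ 2 = s * s := by ring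
    rw [e]; linarith
  have ha : 3 / 2 - s ≤ a2 := by rw [← ha2]; linarith
  have hs1n : s ≤ 1 / n := by rw [le_div_iff₀ hnR]; linarith
  have hno := Nat.odd_iff.1 hodd
  rw [hMdef, ha2]
  intro z hz
  obtain ⟨x, y⟩ := z
  obtain ⟨⟨hy1, hy2⟩, ⟨hr1, hr2, hr3⟩, ⟨hl1, hl2, hl3⟩⟩ :=
    ineqs hs0 hs hd0 hd hHdef hMdef hH hH2 hM0 (by linarith) _ hz
  simp only at hy1 hy2 hr1 hr2 hr3 hl1 hl2 hl3
  -- a point near plateau number `p`
  have plat : ∀ p ≤ n, ∀ t, lft s a2 n p ≤ t → t ≤ rgt s a2 n p →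
      (x - t) ^ 2 + (y - (-1) ^ p * M) ^ 2 ≤ 1 →
      ∃ i < 2 * n + 1, ∃ w ∈ segment ℝ (crv s M a2 n i) (crv s M a2 n (i + 1)),
        dist (⟨x, y⟩ : ℂ) w ≤ 1 := by
    intro p hp t h1 h2 h3
    exact ⟨2 * p, by omega, _, mem_plateau p t h1 h2, dist_le_one h3⟩
  by_cases hxr : 1 / 2 < x
  · -- right part
    have hpn : (-1 : ℝ) ^ n = -1 := hodd.neg_one_pow
    have hrn : rgt s a2 n n = a2 := by simp [rgt]
    rcases side_cover (H := H) (M := M) (X := x) (Y := y) hs0 hs hd0 hd (by linarith) hc1 hsc hH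
      hH2 hM0 (by linarith) hHM hxr.le hr3 hy2 hr1 hr2 with ⟨h1, h2⟩ | h1 | h1
    · refine plat n le_rfl x ?_ ?_ ?_
      · refine (lft_le hn ha n).trans ?_
        have e : ((n : ℝ) - 1) / n = 1 - 1 / n := by field_simp
        rw [e]; linarith
      · rw [hrn, ← ha2]; exact h1
      · rw [hpn]
        have e : (x - x) ^ 2 + (y - -1 * M) ^ 2 = (y + M) ^ 2 := by ring
        rw [e]; exact h2
    · refine plat (n - 1) (by omega) (rgt s a2 n (n - 1)) (lft_le_rgt hn ha hns _) le_rfl ?_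
      have hev : (-1 : ℝ) ^ (n - 1) = 1 := by
        apply Even.neg_one_pow
        rw [Nat.even_iff]; omega
      have hr : rgt s a2 n (n - 1) = 1 / 2 - s := by
        unfold rgt
        rw [if_neg (by omega)]
        have : ((n - 1 : ℕ) : ℝ) = n - 1 := by rw [Nat.cast_sub (by omega)]; simp
        rw [this]; field_simp; ring
      rw [hev, hr, one_mul]; exact h1
    · refine plat n le_rfl a2 ?_ (by rw [hrn]) ?_
      · have h2 := lft_le_rgt hn ha hns n
        rw [hrn] at h2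
        exact h2
      · rw [hpn, ← ha2]
        have e : (y - -1 * M) ^ 2 = (y + M) ^ 2 := by ring
        rw [e]; exact h1
  · by_cases hxl : x < -(1 / 2)
    · -- left part
      have hl0 : lft s a2 n 0 = -a2 := by simp [lft]
      rcases side_cover (H := H) (M := M) (X := -x) (Y := -y) hs0 hs hd0 hd (by linarith) hc1 hsc
        hH hH2 hM0 (by linarith) hHM (by linarith) hl3 (by linarith) hl1 hl2
        with ⟨h1, h2⟩ | h1 | h1
      · refine plat 0 (Nat.zero_le _) x ?_ ?_ ?_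
        · rw [hl0, ← ha2]; linarith
        · refine le_trans ?_ (le_rgt hn ha 0)
          have e : ((0 : ℕ) + 1 : ℝ) / n = 1 / n := by push_cast; ring
          rw [e]; linarith
        · have e : (x - x) ^ 2 + (y - (-1) ^ 0 * M) ^ 2 = (-y + M) ^ 2 := by ring
          rw [e]; exact h2
      · refine plat 1 hn (lft s a2 n 1) le_rfl (lft_le_rgt hn ha hns _) ?_
        have hl : lft s a2 n 1 = -(1 / 2 - s) := by
          unfold lft
          rw [if_neg one_ne_zero]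
          push_cast; ring
        rw [hl]
        have e : (x - -(1 / 2 - s)) ^ 2 + (y - (-1) ^ 1 * M) ^ 2
          = (-x - (1 / 2 - s)) ^ 2 + (-y - M) ^ 2 := by ring
        rw [e]; exact h1
      · refine plat 0 (Nat.zero_le _) (-a2) (by rw [hl0]) ?_ ?_
        · rw [← hl0]; exact lft_le_rgt hn ha hns _
        · have e : (x - -a2) ^ 2 + (y - (-1) ^ 0 * M) ^ 2 = (-x - a2) ^ 2 + (-y + M) ^ 2 := by
            ring
          rw [e, ← ha2]; exact h1
    · -- middle part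
      have hx1 := not_lt.1 hxr
      have hx2 := not_lt.1 hxl
      have main : ∀ r < 2, ∀ sgn : ℝ, (∀ p, p % 2 = r → (-1 : ℝ) ^ p = sgn) →
          (y - sgn * M) ^ 2 ≤ c ^ 2 →
          ∃ i < 2 * n + 1, ∃ w ∈ segment ℝ (crv s M a2 n i) (crv s M a2 n (i + 1)),
            dist (⟨x, y⟩ : ℂ) w ≤ 1 := by
        intro r hr sgn hsgn hy
        obtain ⟨p, hp, hpr, h1, h2⟩ := pick n hodd ((x + 1 / 2) * n)
          (mul_nonneg (by linarith) hnR.le) (by
            have : (x + 1 / 2) * n ≤ 1 * n := mul_le_mul_of_nonneg_right (by linarith) hnR.le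
            linarith) r hr
        have h3 : ((p : ℝ) - 1) / n ≤ x + 1 / 2 := by rw [div_le_iff₀ hnR]; exact h1
        have h4 : x + 1 / 2 ≤ ((p : ℝ) + 1) / n := by rw [le_div_iff₀ hnR]; exact h2
        have h5 := lft_le (s := s) hn ha p
        have h6 := le_rgt (s := s) hn ha p
        have h7 := lft_le_rgt hn ha hns p
        have h8 : |x - max (lft s a2 n p) (min x (rgt s a2 n p))| ≤ s := by
          rw [abs_le]
          rcases le_total x (rgt s a2 n p) with h9 | h9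
          · rw [min_eq_left h9]
            rcases le_total (lft s a2 n p) x with h10 | h10
            · rw [max_eq_right h10]; constructor <;> linarith
            · rw [max_eq_left h10]; constructor <;> linarith
          · rw [min_eq_right h9, max_eq_right h7]; constructor <;> linarith
        refine plat p hp (max (lft s a2 n p) (min x (rgt s a2 n p))) (le_max_left _ _)
          (max_le h7 (min_le_right _ _)) ?_
        rw [hsgn p hpr]
        have h9 : (x - max (lft s a2 n p) (min x (rgt s a2 n p))) ^ 2 ≤ s ^ 2 :=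
          sq_le_sq' (neg_le_of_abs_le h8) (le_of_abs_le h8)
        linarith
      by_cases hy : 0 ≤ y
      · refine main 0 (by norm_num) 1 (fun p hp => Even.neg_one_pow (Nat.even_iff.2 hp)) ?_
        exact sq_le_sq' (by linarith) (by linarith)
      · refine main 1 (by norm_num) (-1) (fun p hp => Odd.neg_one_pow (Nat.odd_iff.2 hp)) ?_
        have := not_le.1 hy
        exact sq_le_sq' (by linarith) (by linarith)

/-- Mowability from an odd number of teeth. -/
theorem mowable_of {s c d : ℝ} (hs0 : 0 < s) (hs : s < 1 / 100) (hc0 : 0 < c)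
    (hsc : s ^ 2 + c ^ 2 = 1) (hd0 : 0 ≤ d) (hd : d < s ^ 2) {n : ℕ} (hodd : Odd n)
    (hns : n * s ≤ 1)
    (hlen : n * Real.sqrt ((2 * s - 1 / n) ^ 2 + 4 * (s ^ 2 / c) ^ 2)
      ≤ 2 * n * s - 1 + 2 * s ^ 2 + d) : Mowable (hull (fam s c d)) := by
  refine ⟨2 * n + 1, _, crv_mows hs0 hs hc0 hsc hd0 hd hodd hns, ?_⟩
  have hs2 : s ^ 2 < 1 / 10000 := by
    have : s ^ 2 < (1 / 100) ^ 2 := pow_lt_pow_left₀ hs hs0.le (by norm_num)
    linarith
  have hss : s ^ 2 ≤ s / 100 := by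
    have : s * s ≤ s * (1 / 100) := mul_le_mul_of_nonneg_left hs.le hs0.le
    have e : s ^ 2 = s * s := by ring
    rw [e]; linarith
  rw [crv_len hodd.pos (by linarith) hns]
  linarith

/-- Mowability at the integral parameters. -/
theorem mowable_integral {s c : ℝ} (hs0 : 0 < s) (hs : s < 1 / 100) (hc0 : 0 < c)
    (hsc : s ^ 2 + c ^ 2 = 1) (k : ℕ) (hk : (2 * k + 1) * s = 1 - s ^ 2) :
    Mowable (hull (fam s c 0)) := by
  have hs20 : 0 < s ^ 2 := by positivity
  have hn : ((2 * k + 1 : ℕ) : ℝ) = 2 * k + 1 := by push_cast; ring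
  have hn0 : (0 : ℝ) < 2 * k + 1 := by positivity
  refine mowable_of hs0 hs hc0 hsc le_rfl (by positivity) (n := 2 * k + 1) ⟨k, rfl⟩
    (by rw [hn, hk]; linarith) ?_
  rw [hn]
  have hc2 : c ^ 2 = (2 * k + 1) * s := by linarith
  have hD : (1 : ℝ) / (2 * k + 1) = s / c ^ 2 := by
    rw [hc2]; field_simp
  have hsq : (2 * s - 1 / (2 * (k : ℝ) + 1)) ^ 2 + 4 * (s ^ 2 / c) ^ 2
      = (1 / (2 * (k : ℝ) + 1)) ^ 2 := by
    rw [hD]
    have h1 : s ^ 2 = 1 - c ^ 2 := by linarith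
    have e : (2 * s - s / c ^ 2) ^ 2 + 4 * (s ^ 2 / c) ^ 2 - (s / c ^ 2) ^ 2
        = 4 * s ^ 2 / c ^ 2 * (c ^ 2 - 1 + s ^ 2) := by field_simp; ring
    have e2 : c ^ 2 - 1 + s ^ 2 = 0 := by linarith
    rw [e2, mul_zero] at e
    linarith
  rw [hsq, Real.sqrt_sq (by positivity)]
  have e3 : (2 * (k : ℝ) + 1) * (1 / (2 * k + 1)) = 1 := by field_simp
  rw [e3]
  have e4 : 2 * (2 * (k : ℝ) + 1) * s = 2 * ((2 * k + 1) * s) := by ring
  rw [e4, hk]
  linarith

end Pool.Agent.LawnInt
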