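import Pool.Agent.LawnZig.Defs

/-!
# A family of convex hexagons: definitions
-/

namespace Pool.Agent.LawnInt

open Pool.Agent.LawnZig

/-- The convex hull of six points of the plane, given by their coordinates. -/
def hull (p : Fin 6 → Fin 2 → ℝ) : Set ℂ :=
  convexHull ℝ (Set.range fun i => (⟨p i 0, p i 1⟩ : ℂ))

/-- `P` can be mown by a polygonal curve of length at most `3` (the curve has `m` segments, for
some `m`). -/
def Mowable (P : Set ℂ) : Prop := ∃ (m : ℕ) (v : ℕ → ℂ), Mows P m v ∧ len m v ≤ 3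

/-- The six vertices of the hexagon with parameters `s`, `c`, `d` (in cyclic order);
`c` stands for `√(1 - s²)`. -/
noncomputable def fam (s c d : ℝ) : Fin 6 → Fin 2 → ℝ :=
  ![![-(5 / 2 - s ^ 2 - d / 2), s ^ 2 / c], ![-1, 1 / c], ![1 / 2, 1 / c],
    ![5 / 2 - s ^ 2 - d / 2, -(s ^ 2 / c)], ![1, -(1 / c)], ![-(1 / 2), -(1 / c)]]

/-- The six points are the vertices, in clockwise order, of a strictly convex hexagon: any three
of them, in the order of their indices, make a right turn. -/
def ConvexHexagon (p : Fin 6 → Fin 2 → ℝ) : Prop :=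
  ∀ i j k : Fin 6, i < j → j < k →
    (p j 0 - p i 0) * (p k 1 - p i 1) - (p j 1 - p i 1) * (p k 0 - p i 0) < 0

end Pool.Agent.LawnInt
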