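import Pool.Agent.LawnInt.Limit

/-!
# Integrality
-/

namespace Pool.Agent.LawnInt

open Pool.Agent.LawnZig

lemma eq_of_max {s c : ℝ} (hs0 : 0 < s) (hs : s < 1 / 100) (hc : 0 < c)
    (hsc : s ^ 2 + c ^ 2 = 1) (n : ℝ)
    (h : ∀ si ga : ℝ, 0 ≤ si → si ^ 2 + ga ^ 2 = 1 → 10 * si ^ 2 ≤ 1 →
      2 * si ^ 2 + 4 * n * si * (ga / c - 1) ≤ 2 * s ^ 2) : n * s = 1 - s ^ 2 := by
  have hs2 : s ^ 2 < 1 / 10000 := by
    have : s ^ 2 < (1 / 100) ^ 2 := pow_lt_pow_left₀ hs hs0.le (by norm_num)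
    linarith
  have hcs : Real.sqrt (1 - s ^ 2) = c := by
    have : 1 - s ^ 2 = c ^ 2 := by linarith
    rw [this, Real.sqrt_sq hc.le]
  set f : ℝ → ℝ := fun x => 2 * x ^ 2 + 4 * n * x * (Real.sqrt (1 - x ^ 2) / c - 1) with hf
  have hfs : f s = 2 * s ^ 2 := by
    simp only [hf]
    rw [hcs, div_self hc.ne']; ring
  have hmax : IsLocalMax f s := by
    have : Set.Ioo (0 : ℝ) (1 / 10) ∈ nhds s := Ioo_mem_nhds hs0 (by linarith)
    filter_upwards [this] with x hx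
    obtain ⟨hx0, hx1⟩ := hx
    have hx2 : x ^ 2 < 1 / 100 := by
      have : x ^ 2 < (1 / 10) ^ 2 := pow_lt_pow_left₀ hx1 hx0.le (by norm_num)
      linarith
    rw [hfs]
    exact h x (Real.sqrt (1 - x ^ 2)) hx0.le (by
      rw [Real.sq_sqrt (by linarith)]; ring) (by linarith)
  have hd1 : HasDerivAt (fun x : ℝ => x ^ 2) (2 * s) s := by
    simpa using hasDerivAt_pow 2 s
  have hd2 : HasDerivAt (fun x : ℝ => 1 - x ^ 2) (-(2 * s)) s := by
    simpa using hd1.const_sub 1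
  have hd3 : HasDerivAt (fun x : ℝ => Real.sqrt (1 - x ^ 2)) (-(2 * s) / (2 * c)) s := by
    have := hd2.sqrt (by linarith)
    rwa [hcs] at this
  have hd4 : HasDerivAt (fun x : ℝ => Real.sqrt (1 - x ^ 2) / c - 1) (-(2 * s) / (2 * c) / c) s :=
    (hd3.div_const c).sub_const 1
  have hd5 : HasDerivAt (fun x : ℝ => 4 * n * x) (4 * n) s := by
    simpa using (hasDerivAt_id s).const_mul (4 * n)
  have hd6 : HasDerivAt f (2 * (2 * s) + (4 * n * (Real.sqrt (1 - s ^ 2) / c - 1)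
      + 4 * n * s * (-(2 * s) / (2 * c) / c))) s :=
    (hd1.const_mul 2).add (hd5.mul hd4)
  have h0 := hmax.hasDerivAt_eq_zero hd6
  rw [hcs, div_self hc.ne', sub_self, mul_zero, zero_add] at h0
  have e : 2 * (2 * s) + 4 * n * s * (-(2 * s) / (2 * c) / c)
      = 4 * s * (1 - n * s / c ^ 2) := by field_simp; ring
  rw [e] at h0
  have h1 : 1 - n * s / c ^ 2 = 0 := by
    rcases mul_eq_zero.1 h0 with h2 | h2
    · linarith
    · exact h2
  have h2 : n * s / c ^ 2 = 1 := by linarith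
  rw [div_eq_one_iff_eq (by positivity)] at h2
  linarith

theorem integral {s c : ℝ} (hs0 : 0 < s) (hs : s < 1 / 100) (hc : 0 < c)
    (hsc : s ^ 2 + c ^ 2 = 1) (hM : Mowable (hull (fam s c 0))) :
    ∃ k : ℕ, (2 * k + 1) * s = 1 - s ^ 2 := by
  obtain ⟨n, ⟨k, rfl⟩, h⟩ := odd_ineq hs0 hs hc hsc le_rfl (by positivity) hM
  refine ⟨k, ?_⟩
  have := eq_of_max hs0 hs hc hsc ((2 * k + 1 : ℕ) : ℝ) (fun si ga h1 h2 h3 => by
    have := h si ga h1 h2 h3
    linarith)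
  push_cast at this
  exact this

end Pool.Agent.LawnInt
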