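import Pool.Agent.LawnInt.Limit

/-!
# Parameters far from the integral ones
-/

namespace Pool.Agent.LawnInt

open Pool.Agent.LawnZig

lemma root_bound (x κ : ℝ) (hx : 0 ≤ x) (h : x ^ 2 = 1 - κ) (h1 : -1 ≤ κ) (h2 : κ ≤ 1) :
    1 - κ / 2 - κ ^ 2 / 2 ≤ x := by
  have e : (1 - κ / 2 - κ ^ 2 / 2) ^ 2 = 1 - κ - κ ^ 2 * ((1 - κ) * (3 + κ)) / 4 := by ring
  have h3 : 0 ≤ κ ^ 2 * ((1 - κ) * (3 + κ)) :=
    mul_nonneg (sq_nonneg κ) (mul_nonneg (by linarith) (by linarith))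
  apply (abs_le_of_sq_le_sq' (b := x) _ hx).2
  rw [e, h]
  linarith

/-- The crucial computation. -/
lemma gap {s c d τ J n : ℝ} (hs0 : 0 < s) (hs : s < 1 / 100) (hc : 0 < c)
    (hsc : s ^ 2 + c ^ 2 = 1) (hd : d ≤ s ^ 4 / 4) (hn : 0 ≤ n) (hτ : τ = 1 ∨ τ = -1)
    (hJ : n * s = c ^ 2 + s * J) (hJ1 : 3 / 4 ≤ τ * J)
    (h : ∀ si ga : ℝ, 0 ≤ si → si ^ 2 + ga ^ 2 = 1 → 10 * si ^ 2 ≤ 1 →
      2 * si ^ 2 + 4 * n * si * (ga / c - 1) ≤ 2 * s ^ 2 + d) : False := by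
  have hs2 : s ^ 2 < 1 / 10000 := by
    have : s ^ 2 < (1 / 100) ^ 2 := pow_lt_pow_left₀ hs hs0.le (by norm_num)
    linarith
  have hs20 : 0 < s ^ 2 := by positivity
  have hs30 : 0 < s ^ 3 := by positivity
  have hs3 : s ^ 3 ≤ s / 10000 := by
    have : s * s ^ 2 ≤ s * (1 / 10000) := mul_le_mul_of_nonneg_left hs2.le hs0.le
    have e : s ^ 3 = s * s ^ 2 := by ring
    rw [e]; linarith
  have hτ2 : τ ^ 2 = 1 := by rcases hτ with rfl | rfl <;> norm_num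
  have hτs : |τ * s| < 1 / 100 := by
    rcases hτ with rfl | rfl
    · rw [one_mul, abs_of_pos hs0]; exact hs
    · rw [neg_one_mul, abs_neg, abs_of_pos hs0]; exact hs
  obtain ⟨hτs1, hτs2⟩ := abs_lt.1 hτs
  have hc2 : c ^ 2 = 1 - s ^ 2 := by linarith
  have hc2p : 0 < c ^ 2 := by positivity
  -- the test angle
  set si := s * (1 - τ * s / 2) with hsi
  set K := s ^ 3 * (1 - τ * s / 4) / c ^ 2 with hK
  have hsi0 : 0 ≤ si := mul_nonneg hs0.le (by linarith)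
  have hsi2 : si ^ 2 - s ^ 2 = -τ * K * c ^ 2 := by
    have e1 : K * c ^ 2 = s ^ 3 * (1 - τ * s / 4) := by
      rw [hK]; field_simp
    have e2 : -τ * K * c ^ 2 = -τ * (K * c ^ 2) := by ring
    rw [e2, e1, hsi]
    have e3 : (s * (1 - τ * s / 2)) ^ 2 - s ^ 2 = -τ * s ^ 3 + τ ^ 2 * s ^ 4 / 4 := by ring
    have e4 : -τ * (s ^ 3 * (1 - τ * s / 4)) = -τ * s ^ 3 + τ ^ 2 * s ^ 4 / 4 := by ring
    rw [e3, e4]
  have hK1 : 99 / 100 * s ^ 3 ≤ K := by
    rw [hK, le_div_iff₀ hc2p]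
    have h1 : 99 / 100 * s ^ 3 * c ^ 2 ≤ 99 / 100 * s ^ 3 * 1 :=
      mul_le_mul_of_nonneg_left (by linarith) (by positivity)
    have h2 : s ^ 3 * (99 / 100) ≤ s ^ 3 * (1 - τ * s / 4) :=
      mul_le_mul_of_nonneg_left (by linarith) hs30.le
    linarith
  have hK2 : K ≤ 102 / 100 * s ^ 3 := by
    rw [hK, div_le_iff₀ hc2p]
    have h1 : 102 / 100 * s ^ 3 * (99 / 100) ≤ 102 / 100 * s ^ 3 * c ^ 2 :=
      mul_le_mul_of_nonneg_left (by linarith) (by positivity)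
    have h2 : s ^ 3 * (1 - τ * s / 4) ≤ s ^ 3 * (1 + 1 / 400) :=
      mul_le_mul_of_nonneg_left (by linarith) hs30.le
    linarith
  have hK0 : 0 < K := by linarith
  have hKs : K ≤ s / 1000 := by linarith
  have hK3 : K ≤ 1 / 1000 := by linarith
  set ga := Real.sqrt (1 - si ^ 2) with hga
  have hsi1 : si ^ 2 ≤ 2 / 10000 := by
    have h1 : -τ * K * c ^ 2 ≤ K := by
      have h2 : |τ| = 1 := by rcases hτ with rfl | rfl <;> norm_num
      have h3 : -τ ≤ 1 := by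
        have := (abs_le.1 h2.le).1
        linarith
      have h4 : -τ * (K * c ^ 2) ≤ 1 * (K * c ^ 2) :=
        mul_le_mul_of_nonneg_right h3 (by positivity)
      have h5 : K * c ^ 2 ≤ K * 1 := mul_le_mul_of_nonneg_left (by linarith) hK0.le
      linarith
    have h6 : K ≤ 1 / 10000 := by linarith
    linarith
  have hgasq : si ^ 2 + ga ^ 2 = 1 := by
    rw [hga, Real.sq_sqrt (by linarith)]; ring
  have hmain := h si ga hsi0 hgasq (by linarith)
  -- lower bound for the cosine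
  have hx : (ga / c) ^ 2 = 1 - (-τ * K) := by
    rw [div_pow, div_eq_iff hc2p.ne']
    have : ga ^ 2 = c ^ 2 - (si ^ 2 - s ^ 2) := by linarith
    rw [this, hsi2]; ring
  have hτK : |(-τ * K)| ≤ 1 / 1000 := by
    rcases hτ with rfl | rfl
    · rw [abs_of_nonpos (by linarith)]; linarith
    · rw [abs_of_nonneg (by linarith)]; linarith
  have hroot := root_bound (ga / c) (-τ * K) (div_nonneg (Real.sqrt_nonneg _) hc.le) hx
    (by have := (abs_le.1 hτK).1; linarith) (by have := (abs_le.1 hτK).2; linarith)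
  have hτK2 : (-τ * K) ^ 2 = K ^ 2 := by
    rw [mul_pow, neg_sq, hτ2, one_mul]
  rw [hτK2] at hroot
  have h1 : 4 * n * si * (τ * K / 2 - K ^ 2 / 2) ≤ 4 * n * si * (ga / c - 1) :=
    mul_le_mul_of_nonneg_left (by linarith) (by positivity)
  have h2 : n * si = (c ^ 2 + s * J) * (1 - τ * s / 2) := by
    rw [hsi, ← hJ]; ring
  -- the main quantity
  have h3 : 2 * K * ((c ^ 2 + s * J) * (1 - τ * s / 2) * (τ - K) - τ * c ^ 2) ≤ s ^ 4 / 4 := by
    have e1 : 4 * n * si * (τ * K / 2 - K ^ 2 / 2) = 2 * K * (n * si * (τ - K)) := by ring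
    rw [e1, h2] at h1
    have e2 : 2 * K * ((c ^ 2 + s * J) * (1 - τ * s / 2) * (τ - K) - τ * c ^ 2)
        = 2 * K * ((c ^ 2 + s * J) * (1 - τ * s / 2) * (τ - K)) + 2 * (-τ * K * c ^ 2) := by ring
    rw [e2, ← hsi2]
    linarith
  have h4 : (c ^ 2 + s * J) * (1 - τ * s / 2) * (τ - K) - τ * c ^ 2
      = s * (τ * J) * (1 - τ * s / 2 - τ * K + s * K / 2)
        - c ^ 2 * (s / 2 + K - τ * (s * K) / 2) := by
    rcases hτ with rfl | rfl <;> ring
  have hτK' : |τ * K| ≤ 1 / 1000 := by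
    have : τ * K = -(-τ * K) := by ring
    rw [this, abs_neg]; exact hτK
  obtain ⟨hk1, hk2⟩ := abs_le.1 hτK'
  have hsK : 0 ≤ s * K := mul_nonneg hs0.le hK0.le
  have hsK2 : s * K ≤ s / 1000 := by
    have : s * K ≤ s * (1 / 1000) := mul_le_mul_of_nonneg_left hK3 hs0.le
    linarith
  have h5 : s * (3 / 4) * (98 / 100) ≤ s * (τ * J) * (1 - τ * s / 2 - τ * K + s * K / 2) := by
    apply mul_le_mul (mul_le_mul_of_nonneg_left hJ1 hs0.le) (by linarith) (by norm_num)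
    exact mul_nonneg hs0.le (by linarith)
  have h6 : c ^ 2 * (s / 2 + K - τ * (s * K) / 2) ≤ s / 2 + K + s * K / 2 := by
    have h7 : -(τ * (s * K)) ≤ s * K := by
      rcases hτ with rfl | rfl
      · linarith
      · linarith
    have h8 : 0 ≤ s / 2 + K + s * K / 2 := by linarith
    have h9 : c ^ 2 * (s / 2 + K - τ * (s * K) / 2) ≤ c ^ 2 * (s / 2 + K + s * K / 2) :=
      mul_le_mul_of_nonneg_left (by linarith) hc2p.le
    have h10 : c ^ 2 * (s / 2 + K + s * K / 2) ≤ 1 * (s / 2 + K + s * K / 2) :=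
      mul_le_mul_of_nonneg_right (by linarith) h8
    linarith
  have h7 : s / 5 ≤ (c ^ 2 + s * J) * (1 - τ * s / 2) * (τ - K) - τ * c ^ 2 := by
    rw [h4]; linarith
  have h8 : 2 * K * (s / 5) ≤ s ^ 4 / 4 :=
    (mul_le_mul_of_nonneg_left h7 (by linarith)).trans h3
  have h9 : 2 * (99 / 100 * s ^ 3) * (s / 5) ≤ 2 * K * (s / 5) :=
    mul_le_mul_of_nonneg_right (by linarith) (by linarith)
  have e5 : 2 * (99 / 100 * s ^ 3) * (s / 5) = 198 / 500 * s ^ 4 := by ring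
  have hs4 : 0 < s ^ 4 := by positivity
  linarith

/-- Near the even integral parameters the hexagon cannot be mown. -/
theorem not_mowable_even {s c d : ℝ} (hs0 : 0 < s) (hs : s < 1 / 100) (hc : 0 < c)
    (hsc : s ^ 2 + c ^ 2 = 1) (hd0 : 0 ≤ d) (hd : d ≤ s ^ 4 / 4) (m : ℕ) (hm : Even m)
    (hms : |m * s - c ^ 2| ≤ s / 4) : ¬ Mowable (hull (fam s c d)) := by
  intro hM
  have hs2 : s ^ 2 < 1 / 10000 := by
    have : s ^ 2 < (1 / 100) ^ 2 := pow_lt_pow_left₀ hs hs0.le (by norm_num)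
    linarith
  have hs20 : 0 < s ^ 2 := by positivity
  have hs4 : s ^ 4 / 4 < s ^ 2 := by
    have : s ^ 2 * s ^ 2 < s ^ 2 * 1 := mul_lt_mul_of_pos_left (by linarith) hs20
    have e : s ^ 4 = s ^ 2 * s ^ 2 := by ring
    rw [e]; linarith
  obtain ⟨n, hodd, h⟩ := odd_ineq hs0 hs hc hsc hd0 (by linarith) hM
  have hJ : (n : ℝ) * s = c ^ 2 + s * ((n * s - c ^ 2) / s) := by
    rw [mul_div_cancel₀ _ hs0.ne']; ring
  obtain ⟨h1, h2⟩ := abs_le.1 hms
  rcases lt_trichotomy n m with h3 | h3 | h3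
  · refine gap hs0 hs hc hsc hd (Nat.cast_nonneg n) (Or.inr rfl) hJ ?_ h
    have h4 : (n : ℝ) + 1 ≤ m := by exact_mod_cast h3
    have h5 : ((n : ℝ) + 1) * s ≤ m * s := mul_le_mul_of_nonneg_right h4 hs0.le
    have e : (-1 : ℝ) * ((n * s - c ^ 2) / s) = (c ^ 2 - n * s) / s := by ring
    rw [e, le_div_iff₀ hs0]
    linarith
  · subst h3
    exact (Nat.not_even_iff_odd.2 hodd) hm
  · refine gap hs0 hs hc hsc hd (Nat.cast_nonneg n) (Or.inl rfl) hJ ?_ h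
    have h4 : (m : ℝ) + 1 ≤ n := by exact_mod_cast h3
    have h5 : ((m : ℝ) + 1) * s ≤ n * s := mul_le_mul_of_nonneg_right h4 hs0.le
    rw [one_mul, le_div_iff₀ hs0]
    linarith

end Pool.Agent.LawnInt
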