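import Mathlib

/-!
# Semialgebraic sets along a rational curve germ
-/

namespace Pool.Agent.LawnInt

open Filter Topology

/-- Semialgebraic sets: the Boolean algebra generated by the sets `{x | 0 < p x}` with `p` a
polynomial with real coefficients. -/
inductive Semialgebraic {ι : Type} : Set (ι → ℝ) → Prop
  | pos (p : MvPolynomial ι ℝ) : Semialgebraic {x | 0 < MvPolynomial.eval x p}
  | compl {A : Set (ι → ℝ)} : Semialgebraic A → Semialgebraic Aᶜ
  | inter {A B : Set (ι → ℝ)} : Semialgebraic A → Semialgebraic B → Semialgebraic (A ∩ B)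

/-- the sign of a polynomial is constant immediately to the right of `0` -/
lemma poly_sign (a : Polynomial ℝ) :
    (∀ᶠ u in 𝓝[>] (0 : ℝ), 0 < a.eval u) ∨ (∀ᶠ u in 𝓝[>] (0 : ℝ), ¬ 0 < a.eval u) := by
  induction hn : a.natDegree using Nat.strong_induction_on generalizing a with
  | _ n ih =>
    have hcont : Tendsto (fun u => a.eval u) (𝓝[>] (0 : ℝ)) (𝓝 (a.eval 0)) :=
      (a.continuous.tendsto 0).mono_left nhdsWithin_le_nhds
    rcases lt_trichotomy (a.eval 0) 0 with h | h | h
    · right
      filter_upwards [hcont.eventually_lt_const h] with u hu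
      exact not_lt.2 hu.le
    · by_cases hz : a.natDegree = 0
      · right
        rw [Polynomial.eq_C_of_natDegree_eq_zero hz] at h ⊢
        simp only [Polynomial.eval_C] at h ⊢
        rw [h]
        simp
      · have hdiv : a.divX * Polynomial.X + Polynomial.C (a.coeff 0) = a :=
          Polynomial.divX_mul_X_add a
        have h0 : a.coeff 0 = 0 := by
          rw [Polynomial.coeff_zero_eq_eval_zero]; exact h
        rw [h0, map_zero, add_zero] at hdiv
        have hev : ∀ u, a.eval u = a.divX.eval u * u := by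
          intro u
          conv_lhs => rw [← hdiv]
          simp
        have hdeg : a.divX.natDegree < n := by
          rw [Polynomial.natDegree_divX_eq_natDegree_tsub_one, ← hn]
          omega
        rcases ih _ hdeg a.divX rfl with h1 | h1
        · left
          filter_upwards [h1, self_mem_nhdsWithin] with u hu hu0
          rw [hev]
          exact mul_pos hu hu0
        · right
          filter_upwards [h1, self_mem_nhdsWithin] with u hu hu0
          rw [hev, not_lt]
          exact mul_nonpos_of_nonpos_of_nonneg (not_lt.1 hu) (le_of_lt hu0)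
    · left
      exact hcont.eventually_const_lt h

/-- germs of rational functions without pole at `0` -/
def Rat0 (g : ℝ → ℝ) : Prop :=
  ∃ a b : Polynomial ℝ, 0 < b.eval 0 ∧ ∀ᶠ u in 𝓝[>] (0 : ℝ), g u * b.eval u = a.eval u

lemma Rat0.const (r : ℝ) : Rat0 (fun _ => r) :=
  ⟨Polynomial.C r, 1, by simp, by simp⟩

lemma Rat0.poly (a : Polynomial ℝ) : Rat0 (fun u => a.eval u) :=
  ⟨a, 1, by simp, by simp⟩

lemma Rat0.id : Rat0 (fun u => u) :=
  ⟨Polynomial.X, 1, by simp, by simp⟩

lemma Rat0.add {g h : ℝ → ℝ} (hg : Rat0 g) (hh : Rat0 h) : Rat0 (fun u => g u + h u) := by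
  obtain ⟨a, b, hb, h1⟩ := hg
  obtain ⟨a', b', hb', h2⟩ := hh
  refine ⟨a * b' + a' * b, b * b', by rw [Polynomial.eval_mul]; exact mul_pos hb hb', ?_⟩
  filter_upwards [h1, h2] with u hu1 hu2
  rw [Polynomial.eval_mul, Polynomial.eval_add, Polynomial.eval_mul, Polynomial.eval_mul, ← hu1,
    ← hu2]
  ring

lemma Rat0.mul {g h : ℝ → ℝ} (hg : Rat0 g) (hh : Rat0 h) : Rat0 (fun u => g u * h u) := by
  obtain ⟨a, b, hb, h1⟩ := hg
  obtain ⟨a', b', hb', h2⟩ := hh
  refine ⟨a * a', b * b', by rw [Polynomial.eval_mul]; exact mul_pos hb hb', ?_⟩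
  filter_upwards [h1, h2] with u hu1 hu2
  rw [Polynomial.eval_mul, Polynomial.eval_mul, ← hu1, ← hu2]
  ring

lemma Rat0.neg {g : ℝ → ℝ} (hg : Rat0 g) : Rat0 (fun u => -g u) := by
  have := (Rat0.const (-1)).mul hg
  simpa using this

lemma Rat0.pow {g : ℝ → ℝ} (hg : Rat0 g) (n : ℕ) : Rat0 (fun u => g u ^ n) := by
  induction n with
  | zero => simpa using Rat0.const 1
  | succ n ih =>
    have := ih.mul hg
    simpa [pow_succ] using this

/-- inverse of a function with positive value at `0` -/
lemma Rat0.inv {g : ℝ → ℝ} {a b : Polynomial ℝ} (ha : 0 < a.eval 0) (hb : 0 < b.eval 0)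
    (h : ∀ᶠ u in 𝓝[>] (0 : ℝ), g u * b.eval u = a.eval u) : Rat0 (fun u => (g u)⁻¹) := by
  refine ⟨b, a, ha, ?_⟩
  have hcont : Tendsto (fun u => a.eval u) (𝓝[>] (0 : ℝ)) (𝓝 (a.eval 0)) :=
    (a.continuous.tendsto 0).mono_left nhdsWithin_le_nhds
  filter_upwards [h, hcont.eventually_const_lt ha] with u hu hu2
  have hg : g u ≠ 0 := by
    intro h0
    rw [h0, zero_mul] at hu
    linarith
  rw [← hu]
  field_simp

lemma Rat0.sign {g : ℝ → ℝ} (hg : Rat0 g) :
    (∀ᶠ u in 𝓝[>] (0 : ℝ), 0 < g u) ∨ (∀ᶠ u in 𝓝[>] (0 : ℝ), ¬ 0 < g u) := by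
  obtain ⟨a, b, hb, h⟩ := hg
  have hcont : Tendsto (fun u => b.eval u) (𝓝[>] (0 : ℝ)) (𝓝 (b.eval 0)) :=
    (b.continuous.tendsto 0).mono_left nhdsWithin_le_nhds
  have hbp := hcont.eventually_const_lt hb
  rcases poly_sign a with h1 | h1
  · left
    filter_upwards [h, hbp, h1] with u hu hub hua
    rw [← hu] at hua
    exact (mul_pos_iff_of_pos_right hub).1 hua
  · right
    filter_upwards [h, hbp, h1] with u hu hub hua
    rw [← hu] at hua
    intro h2
    exact hua (mul_pos h2 hub)

lemma Rat0.mv {ι : Type} {F : ℝ → ι → ℝ} (hF : ∀ i, Rat0 (fun u => F u i))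
    (p : MvPolynomial ι ℝ) : Rat0 (fun u => MvPolynomial.eval (F u) p) := by
  induction p using MvPolynomial.induction_on with
  | C r => simpa using Rat0.const r
  | add p q hp hq => simpa using hp.add hq
  | mul_X p i hp => simpa using hp.mul (hF i)

/-- **Membership in a semialgebraic set is constant immediately to the right of `0` along a
rational curve.** -/
theorem Semialgebraic.germ {ι : Type} {F : ℝ → ι → ℝ} (hF : ∀ i, Rat0 (fun u => F u i))
    {A : Set (ι → ℝ)} (hA : Semialgebraic A) :
    (∀ᶠ u in 𝓝[>] (0 : ℝ), F u ∈ A) ∨ (∀ᶠ u in 𝓝[>] (0 : ℝ), F u ∉ A) := by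
  induction hA with
  | pos p => exact (Rat0.mv hF p).sign
  | compl _ ih =>
    rcases ih with h | h
    · right
      filter_upwards [h] with u hu
      exact fun h' => h' hu
    · left
      exact h
  | inter _ _ ih1 ih2 =>
    rcases ih1 with h1 | h1
    · rcases ih2 with h2 | h2
      · left
        filter_upwards [h1, h2] with u hu1 hu2
        exact ⟨hu1, hu2⟩
      · right
        filter_upwards [h2] with u hu
        exact fun h' => hu h'.2
    · right
      filter_upwards [h1] with u hu
      exact fun h' => hu h'.1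

end Pool.Agent.LawnInt
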