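import Pool.Agent.LawnInt.Cover
import Pool.Agent.LawnInt.NoMow
import Pool.Agent.LawnInt.Semi

/-!
# The rational curve of hexagons
-/

namespace Pool.Agent.LawnInt

open Filter Topology Pool.Agent.LawnZig

/-- the hexagons of the family are strictly convex -/
lemma fam_convex {s c d : ℝ} (hs0 : 0 < s) (hs : s < 1 / 100) (hc0 : 0 < c)
    (hsc : s ^ 2 + c ^ 2 = 1) (hd0 : 0 ≤ d) (hd : d < s ^ 2) : ConvexHexagon (fam s c d) := by
  have hs2 : s ^ 2 < 1 / 10000 := by
    have : s ^ 2 < (1 / 100) ^ 2 := pow_lt_pow_left₀ hs hs0.le (by norm_num)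
    linarith
  have hs20 : 0 < s ^ 2 := by positivity
  have hc1 : c < 1 := by
    have : c ^ 2 < 1 := by linarith
    exact (abs_lt_of_sq_lt_sq' (by simpa using this : c ^ 2 < 1 ^ 2) zero_le_one).2
  have hc : 999 / 1000 < c := by
    have : (999 / 1000 : ℝ) ^ 2 < c ^ 2 := by
      have : c ^ 2 = 1 - s ^ 2 := by linarith
      rw [this]; linarith
    exact lt_of_pow_lt_pow_left₀ 2 hc0.le this
  obtain ⟨H, hHdef⟩ : ∃ H, 1 / c = H := ⟨_, rfl⟩
  obtain ⟨M, hMdef⟩ : ∃ M, s ^ 2 / c = M := ⟨_, rfl⟩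
  have hHM : H - M = c := by
    rw [← hHdef, ← hMdef]
    have : s ^ 2 = 1 - c ^ 2 := by linarith
    rw [this]; field_simp; ring
  have hM0 : 0 < M := by rw [← hMdef]; positivity
  have hM : M ≤ 2 / 10000 := by
    rw [← hMdef, div_le_iff₀ hc0]; linarith
  have hH : 1 ≤ H := by rw [← hHdef, le_div_iff₀ hc0]; linarith
  have hH2 : H ≤ 1001 / 1000 := by linarith
  obtain ⟨D, hD⟩ : ∃ D, s ^ 2 + d / 2 = D := ⟨_, rfl⟩
  have hD0 : 0 ≤ D := by rw [← hD]; linarith
  have hD1 : D ≤ 2 / 10000 := by rw [← hD]; linarith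
  have eA : 5 / 2 - s ^ 2 - d / 2 = 5 / 2 - D := by rw [← hD]; ring
  have p1 : 0 ≤ H * D := mul_nonneg (by linarith) hD0
  have p2 : 0 ≤ M * D := mul_nonneg hM0.le hD0
  have p3 : H * D ≤ 2 / 1000 := by
    calc H * D ≤ (1001 / 1000) * (2 / 10000) := mul_le_mul hH2 hD1 hD0 (by norm_num)
      _ ≤ 2 / 1000 := by norm_num
  have p4 : M * D ≤ 2 / 1000 := by
    calc M * D ≤ (2 / 10000) * (2 / 10000) := mul_le_mul hM hD1 hD0 (by norm_num)
      _ ≤ 2 / 1000 := by norm_num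
  unfold ConvexHexagon fam
  rw [hHdef, hMdef, eA]
  intro i j k hij hjk
  fin_cases i <;> fin_cases j <;>
    first
      | exact absurd hij (by decide)
      | (fin_cases k <;>
          first
            | exact absurd hjk (by decide)
            | (simp; linarith))

/-- sine along the rational curve -/
noncomputable def su (u : ℝ) : ℝ := 2 * u / (1 + u ^ 2)

/-- cosine along the rational curve -/
noncomputable def cu (u : ℝ) : ℝ := (1 - u ^ 2) / (1 + u ^ 2)

lemma su_cu (u : ℝ) : su u ^ 2 + cu u ^ 2 = 1 := by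
  unfold su cu
  have : (1 + u ^ 2) ≠ 0 := by positivity
  field_simp
  ring

lemma su_cont : Continuous su := by
  unfold su
  exact (by fun_prop : Continuous fun u : ℝ => 2 * u).div (by fun_prop) (fun u => by positivity)

lemma cu_cont : Continuous cu := by
  unfold cu
  exact (by fun_prop : Continuous fun u : ℝ => 1 - u ^ 2).div (by fun_prop)
    (fun u => by positivity)

lemma su_pos {u : ℝ} (hu : 0 < u) : 0 < su u := by unfold su; positivity

lemma cu_pos {u : ℝ} (hu : 0 < u) (hu1 : u < 1) : 0 < cu u := by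
  unfold cu
  have : u ^ 2 < 1 := by
    have : u ^ 2 < 1 ^ 2 := pow_lt_pow_left₀ hu1 hu.le (by norm_num)
    linarith
  exact div_pos (by linarith) (by positivity)

lemma su_lt {u : ℝ} (hu : 0 < u) (hu1 : u < 1 / 200) : su u < 1 / 100 := by
  unfold su
  rw [div_lt_iff₀ (by positivity)]
  have := sq_nonneg u
  linarith

lemma le_su {u : ℝ} (hu : 0 < u) (hu1 : u ≤ 1) : u ≤ su u := by
  unfold su
  rw [le_div_iff₀ (by positivity)]
  have h1 : u ^ 2 ≤ 1 := by
    have : u ^ 2 ≤ 1 ^ 2 := pow_le_pow_left₀ hu.le hu1 2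
    linarith
  have h2 : u * u ^ 2 ≤ u * 1 := mul_le_mul_of_nonneg_left h1 hu.le
  linarith

/-- the margin is small -/
lemma margin {u : ℝ} (hu : 0 < u) (hu1 : u < 1 / 200) : u ^ 5 ≤ su u ^ 4 / 4 := by
  have h1 := le_su hu (by linarith)
  have h2 : u ^ 4 ≤ su u ^ 4 := pow_le_pow_left₀ hu.le h1 4
  have h3 : u ^ 4 * u ≤ u ^ 4 * (1 / 4) := mul_le_mul_of_nonneg_left (by linarith) (by positivity)
  have e : u ^ 5 = u ^ 4 * u := by ring
  rw [e]; linarith

lemma margin' {u : ℝ} (hu : 0 < u) (hu1 : u < 1 / 200) : u ^ 5 < su u ^ 2 := by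
  have h1 := margin hu hu1
  have h2 := su_pos hu
  have h3 := su_lt hu hu1
  have hs20 : 0 < su u ^ 2 := by positivity
  have h4 : su u ^ 2 < (1 / 100) ^ 2 := pow_lt_pow_left₀ h3 h2.le (by norm_num)
  have h5 : su u ^ 2 * su u ^ 2 ≤ su u ^ 2 * 1 := mul_le_mul_of_nonneg_left (by linarith) hs20.le
  have e : su u ^ 4 = su u ^ 2 * su u ^ 2 := by ring
  rw [e] at h1
  linarith

/-- integral parameters accumulate at `0` -/
lemma exists_param (ε : ℝ) (hε : 0 < ε) (r : ℕ) :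
    ∃ (k : ℕ) (u : ℝ), 0 < u ∧ u < ε ∧ ((2 * k + r : ℕ) : ℝ) * su u = 1 - su u ^ 2 := by
  have h1 : 0 < ε / 2 := by linarith
  have h2 := su_pos h1
  obtain ⟨k, hk⟩ := exists_nat_gt (1 / su (ε / 2))
  rw [div_lt_iff₀ h2] at hk
  have h3 : 1 < ((2 * k + r : ℕ) : ℝ) * su (ε / 2) := by
    have : (k : ℝ) ≤ ((2 * k + r : ℕ) : ℝ) := by exact_mod_cast (by omega : k ≤ 2 * k + r)
    have := mul_le_mul_of_nonneg_right this h2.le
    linarith
  have hcont : Continuous (fun u => ((2 * k + r : ℕ) : ℝ) * su u + su u ^ 2) :=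
    (continuous_const.mul su_cont).add (su_cont.pow 2)
  have hs0 : su 0 = 0 := by simp [su]
  have hiv := intermediate_value_Icc h1.le hcont.continuousOn
  have hmem : (1 : ℝ) ∈ Set.Icc (((2 * k + r : ℕ) : ℝ) * su 0 + su 0 ^ 2)
      (((2 * k + r : ℕ) : ℝ) * su (ε / 2) + su (ε / 2) ^ 2) := by
    rw [hs0]
    constructor
    · norm_num
    · have := sq_nonneg (su (ε / 2))
      linarith
  obtain ⟨u, ⟨hu0, hu1⟩, hu⟩ := hiv hmem
  simp only at hu
  refine ⟨k, u, ?_, by linarith, by linarith⟩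
  rcases hu0.eq_or_lt with h | h
  · rw [← h, hs0] at hu
    norm_num at hu
  · exact h

/-- a rational point of a neighbourhood -/
lemma exists_rat {u : ℝ} {P : ℝ → Prop} (h : ∀ᶠ x in 𝓝 u, P x) : ∃ q : ℚ, P q := by
  obtain ⟨e, he, hP⟩ := Metric.eventually_nhds_iff.1 h
  obtain ⟨q, hq1, hq2⟩ := exists_rat_btwn (show u < u + e by linarith)
  refine ⟨q, hP ?_⟩
  rw [Real.dist_eq, abs_of_pos (by linarith)]
  linarith

/-- rational parameters with mowable hexagons accumulate at `0` -/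
lemma exists_yes (ε : ℝ) (hε : 0 < ε) :
    ∃ q : ℚ, 0 < (q : ℝ) ∧ (q : ℝ) < ε ∧ (q : ℝ) < 1 / 200 ∧
      Mowable (hull (fam (su q) (cu q) ((q : ℝ) ^ 5))) := by
  obtain ⟨k, u, hu0, hu1, hk⟩ := exists_param (min ε (1 / 200)) (lt_min hε (by norm_num)) 1
  have huε := hu1.trans_le (min_le_left _ _)
  have hu200 := hu1.trans_le (min_le_right _ _)
  set n : ℕ := 2 * k + 1 with hn
  have hnR : (0 : ℝ) < n := by positivity
  have hs0 := su_pos hu0
  have hc0 := cu_pos hu0 (by linarith)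
  have hsc := su_cu u
  have hs20 : 0 < su u ^ 2 := by positivity
  -- the length at the integral parameter
  have hlen : (n : ℝ) * Real.sqrt ((2 * su u - 1 / n) ^ 2 + 4 * (su u ^ 2 / cu u) ^ 2) = 1 := by
    have hc2 : cu u ^ 2 = n * su u := by linarith
    have hD : (1 : ℝ) / n = su u / cu u ^ 2 := by
      rw [hc2]; field_simp
    have hsq : (2 * su u - 1 / n) ^ 2 + 4 * (su u ^ 2 / cu u) ^ 2 = (1 / (n : ℝ)) ^ 2 := by
      rw [hD]
      have e : (2 * su u - su u / cu u ^ 2) ^ 2 + 4 * (su u ^ 2 / cu u) ^ 2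
          - (su u / cu u ^ 2) ^ 2
          = 4 * su u ^ 2 / cu u ^ 2 * (cu u ^ 2 - 1 + su u ^ 2) := by field_simp; ring
      have e2 : cu u ^ 2 - 1 + su u ^ 2 = 0 := by linarith
      rw [e2, mul_zero] at e
      linarith
    rw [hsq, Real.sqrt_sq (by positivity)]
    field_simp
  have hsc' := su_cont
  have hcc' := cu_cont
  have hev1 : ∀ᶠ x in 𝓝 u, 0 < x := lt_mem_nhds hu0
  have hev2 : ∀ᶠ x in 𝓝 u, x < ε := gt_mem_nhds huε
  have hev3 : ∀ᶠ x in 𝓝 u, x < 1 / 200 := gt_mem_nhds hu200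
  have hev4 : ∀ᶠ x in 𝓝 u, (n : ℝ) * su x < 1 := by
    have hc : ContinuousAt (fun x => (n : ℝ) * su x) u :=
      (continuous_const.mul su_cont).continuousAt
    exact hc.eventually_lt continuousAt_const (by linarith)
  have hev5 : ∀ᶠ x in 𝓝 u, (n : ℝ) * Real.sqrt ((2 * su x - 1 / n) ^ 2
      + 4 * (su x ^ 2 / cu x) ^ 2) < 2 * n * su x - 1 + 2 * su x ^ 2 + x ^ 5 := by
    have hc1 : ContinuousAt (fun x => (n : ℝ) * Real.sqrt ((2 * su x - 1 / n) ^ 2
      + 4 * (su x ^ 2 / cu x) ^ 2)) u := by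
      have h1 : ContinuousAt (fun x => su x ^ 2 / cu x) u :=
        (su_cont.pow 2).continuousAt.div cu_cont.continuousAt hc0.ne'
      have h2 : ContinuousAt (fun x => (2 * su x - 1 / (n : ℝ)) ^ 2) u :=
        (((continuous_const.mul su_cont).sub continuous_const).pow 2).continuousAt
      exact continuousAt_const.mul
        ((h2.add (continuousAt_const.mul (h1.pow 2))).sqrt)
    have hc2 : ContinuousAt (fun x => 2 * (n : ℝ) * su x - 1 + 2 * su x ^ 2 + x ^ 5) u := by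
      exact ((((continuous_const.mul su_cont).sub continuous_const).add
        (continuous_const.mul (su_cont.pow 2))).add (continuous_pow 5)).continuousAt
    apply hc1.eventually_lt hc2
    rw [hlen]
    have h5 : 0 < u ^ 5 := by positivity
    have e : 2 * (n : ℝ) * su u = 2 * (n * su u) := by ring
    rw [e]
    linarith
  obtain ⟨q, ⟨⟨⟨h1, h2⟩, h3⟩, h4⟩, h5⟩ :=
    exists_rat ((((hev1.and hev2).and hev3).and hev4).and hev5)
  exact ⟨q, h1, h2, h3, mowable_of (su_pos h1) (su_lt h1 h3) (cu_pos h1 (by linarith)) (su_cu _)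
    (by positivity) (margin' h1 h3) (n := n) ⟨k, rfl⟩ h4.le h5.le⟩

/-- rational parameters with hexagons that are not mowable accumulate at `0` -/
lemma exists_no (ε : ℝ) (hε : 0 < ε) :
    ∃ q : ℚ, 0 < (q : ℝ) ∧ (q : ℝ) < ε ∧ (q : ℝ) < 1 / 200 ∧
      ¬ Mowable (hull (fam (su q) (cu q) ((q : ℝ) ^ 5))) := by
  obtain ⟨k, u, hu0, hu1, hk⟩ := exists_param (min ε (1 / 200)) (lt_min hε (by norm_num)) 0
  have huε := hu1.trans_le (min_le_left _ _)
  have hu200 := hu1.trans_le (min_le_right _ _)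
  rw [add_zero] at hk
  have hs0 := su_pos hu0
  have hsc := su_cu u
  have hev1 : ∀ᶠ x in 𝓝 u, 0 < x := lt_mem_nhds hu0
  have hev2 : ∀ᶠ x in 𝓝 u, x < ε := gt_mem_nhds huε
  have hev3 : ∀ᶠ x in 𝓝 u, x < 1 / 200 := gt_mem_nhds hu200
  have hev4 : ∀ᶠ x in 𝓝 u, |((2 * k : ℕ) : ℝ) * su x - cu x ^ 2| < su x / 4 := by
    have hc1 : ContinuousAt (fun x => |((2 * k : ℕ) : ℝ) * su x - cu x ^ 2|) u :=
      (((continuous_const.mul su_cont).sub (cu_cont.pow 2)).abs).continuousAt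
    have hc2 : ContinuousAt (fun x => su x / 4) u := (su_cont.div_const 4).continuousAt
    apply hc1.eventually_lt hc2
    have : ((2 * k : ℕ) : ℝ) * su u - cu u ^ 2 = 0 := by linarith
    rw [this, abs_zero]
    linarith
  obtain ⟨q, ⟨⟨h1, h2⟩, h3⟩, h4⟩ := exists_rat (((hev1.and hev2).and hev3).and hev4)
  exact ⟨q, h1, h2, h3, not_mowable_even (su_pos h1) (su_lt h1 h3) (cu_pos h1 (by linarith))
    (su_cu _) (by positivity) (margin h1 h3) (2 * k) (even_two_mul k) h4.le⟩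

end Pool.Agent.LawnInt
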