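import Pool.Agent.LawnInt.Anchor

/-!
# The limit of infinitely fine sampling
-/

namespace Pool.Agent.LawnInt

open Finset Pool.Agent.LawnZig

/-- the inequality obtained from a chain with parameter `ε` -/
def BB (s c d : ℝ) (n : ℕ) (ε : ℝ) : Prop :=
  ∃ S0 : ℝ, (S0 = 1 ∧ Odd n ∨ S0 = 3 / 2) ∧ ∀ si ga : ℝ, 0 ≤ si → si ^ 2 + ga ^ 2 = 1 →
    10 * si ^ 2 ≤ 1 →
      2 * si ^ 2 * S0 + 4 * n * si * (ga / c - 1) ≤ 2 * s ^ 2 + d + 2 * ε + 2 * n * ε

lemma exists_BB {s c d ε : ℝ} (hs0 : 0 < s) (hs : s < 1 / 100) (hc : 0 < c)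
    (hsc : s ^ 2 + c ^ 2 = 1) (hd0 : 0 ≤ d) (hd : d < s ^ 2) (hε0 : 0 < ε)
    (hε : ε ≤ 1 / 100000) (hεH : ε < 1 / c - 1) (hM : Mowable (hull (fam s c d))) :
    ∃ n, BB s c d n ε := by
  obtain ⟨N, w, hL, hx0, hxN, hcov⟩ := chain_of_mow hs0 hs hc hsc hd0 hd hε0 hε hM
  obtain ⟨G, hG⟩ := exists_nat_gt (3 / (2 * ε))
  have hG0 : (0 : ℝ) < G := lt_trans (by positivity) hG
  set η : ℝ := 3 / (2 * G) with hη
  have hη0 : 0 < η := by positivity
  have hηε : η ≤ ε := by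
    rw [hη, div_le_iff₀ (by positivity)]
    rw [div_lt_iff₀ (by positivity)] at hG
    linarith
  have hGη : (G : ℝ) * η = 3 / 2 := by rw [hη]; field_simp
  have hs2 : s ^ 2 < 1 / 10000 := by
    have : s ^ 2 < (1 / 100) ^ 2 := pow_lt_pow_left₀ hs hs0.le (by norm_num)
    linarith
  have hcov' : ∀ a, ∀ k ≤ G, ∃ j ≤ N, cov (1 / c) (1 + ε) η a k (w j) := by
    intro a k hk
    have hkη : (k : ℝ) * η ≤ 3 / 2 := by
      rw [← hGη]
      exact mul_le_mul_of_nonneg_right (by exact_mod_cast hk) hη0.le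
    have hkη0 : 0 ≤ (k : ℝ) * η := by positivity
    obtain ⟨j, hj, hdj⟩ := hcov a (st a + k * η) (by linarith) (by linarith)
    refine ⟨j, hj, ?_⟩
    have h1 := dist_sq_le hdj
    simp only at h1
    unfold cov
    have e : (1 / c - sg a * (w j).im) ^ 2 = ((w j).im - sg a * (1 / c)) ^ 2 := by
      have h2 := sg_sq a
      have e1 : (1 / c - sg a * (w j).im) ^ 2
        = (1 / c) ^ 2 - 2 * (1 / c) * sg a * (w j).im + sg a ^ 2 * (w j).im ^ 2 := by ring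
      have e2 : ((w j).im - sg a * (1 / c)) ^ 2
        = (w j).im ^ 2 - 2 * (1 / c) * sg a * (w j).im + sg a ^ 2 * (1 / c) ^ 2 := by ring
      rw [e1, e2, h2]; ring
    rw [e]; exact h1
  obtain ⟨n, S0, hS0, hmain⟩ := chain_bound (w := w) (H := 1 / c) (r0 := 1 + ε) (η := η) (G := G)
    (by linarith) (by linarith) hη0.le hGη (by linarith) N hcov'
  refine ⟨n, S0, hS0, fun si ga hsi hga hs1 => ?_⟩
  have h := hmain si ga hsi hga hs1
  have hn : (0 : ℝ) ≤ n := Nat.cast_nonneg n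
  have hsi2 : si ≤ 9 / 20 := by
    apply (abs_le_of_sq_le_sq' (b := 9 / 20) _ (by norm_num)).2
    linarith
  have h1 : (n : ℝ) * (2 * si ^ 2 * η) ≤ n * (2 * si ^ 2 * ε) :=
    mul_le_mul_of_nonneg_left (mul_le_mul_of_nonneg_left hηε (by positivity)) hn
  have h2 : (n : ℝ) * ε * (2 * si ^ 2 + 4 * si) ≤ n * ε * 2 :=
    mul_le_mul_of_nonneg_left (by linarith) (mul_nonneg hn hε0.le)
  have e3 : 2 * si ^ 2 * (S0 - n * η) + 4 * n * si * (1 / c * ga - (1 + ε))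
      = 2 * si ^ 2 * S0 + 4 * n * si * (ga / c - 1) - n * (2 * si ^ 2 * η)
        - 4 * n * si * ε := by ring
  have e4 : (n : ℝ) * ε * (2 * si ^ 2 + 4 * si) = n * (2 * si ^ 2 * ε) + 4 * n * si * ε := by ring
  linarith

lemma unif (P : ℕ → ℝ → Prop) (h : ∀ n, ∃ e : ℝ, 0 < e ∧ ∀ ε, 0 < ε → ε < e → ¬ P n ε) (N : ℕ) :
    ∃ e : ℝ, 0 < e ∧ ∀ n ≤ N, ∀ ε, 0 < ε → ε < e → ¬ P n ε := by
  induction N with
  | zero =>
    obtain ⟨e, he, h1⟩ := h 0
    refine ⟨e, he, fun n hn => ?_⟩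
    obtain rfl : n = 0 := by omega
    exact h1
  | succ N ih =>
    obtain ⟨e, he, h1⟩ := ih
    obtain ⟨e', he', h2⟩ := h (N + 1)
    refine ⟨min e e', lt_min he he', fun n hn ε h3 h4 => ?_⟩
    rcases Nat.lt_or_ge n (N + 1) with h5 | h5
    · exact h1 n (by omega) ε h3 (h4.trans_le (min_le_left _ _))
    · obtain rfl : n = N + 1 := by omega
      exact h2 ε h3 (h4.trans_le (min_le_right _ _))

/-- **The inequality for mowable hexagons.** -/
theorem odd_ineq {s c d : ℝ} (hs0 : 0 < s) (hs : s < 1 / 100) (hc : 0 < c)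
    (hsc : s ^ 2 + c ^ 2 = 1) (hd0 : 0 ≤ d) (hd : d < s ^ 2) (hM : Mowable (hull (fam s c d))) :
    ∃ n : ℕ, Odd n ∧ ∀ si ga : ℝ, 0 ≤ si → si ^ 2 + ga ^ 2 = 1 → 10 * si ^ 2 ≤ 1 →
      2 * si ^ 2 + 4 * n * si * (ga / c - 1) ≤ 2 * s ^ 2 + d := by
  by_contra hcon
  push Not at hcon
  have hs2 : s ^ 2 < 1 / 10000 := by
    have : s ^ 2 < (1 / 100) ^ 2 := pow_lt_pow_left₀ hs hs0.le (by norm_num)
    linarith
  have hs20 : 0 < s ^ 2 := by positivity
  have hc1 : c < 1 := by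
    have : c ^ 2 < 1 := by linarith
    exact (abs_lt_of_sq_lt_sq' (by simpa using this : c ^ 2 < 1 ^ 2) zero_le_one).2
  have hH : 0 < 1 / c - 1 := by
    have : 1 < 1 / c := by rw [lt_div_iff₀ hc]; linarith
    linarith
  -- each `n` is excluded for small `ε`
  have hex : ∀ n, ∃ e : ℝ, 0 < e ∧ ∀ ε, 0 < ε → ε < e → ¬ BB s c d n ε := by
    intro n
    have hn : (0 : ℝ) ≤ n := Nat.cast_nonneg n
    have hn2 : (0 : ℝ) < 2 + 2 * n := by linarith
    -- bound for the second type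
    have h2 : ∀ ε, 0 < ε → ε < (s ^ 2 - d) / (2 + 2 * n) → ¬ (∀ si ga : ℝ, 0 ≤ si →
        si ^ 2 + ga ^ 2 = 1 → 10 * si ^ 2 ≤ 1 →
        2 * si ^ 2 * (3 / 2) + 4 * n * si * (ga / c - 1)
          ≤ 2 * s ^ 2 + d + 2 * ε + 2 * n * ε) := by
      intro ε hε hε' h
      have h1 := h s c hs0.le hsc (by linarith)
      rw [div_self hc.ne', sub_self, mul_zero, add_zero] at h1
      rw [lt_div_iff₀ hn2] at hε'
      linarith
    by_cases hodd : Odd n
    · obtain ⟨si, ga, hsi, hga, hsi1, hlt⟩ := hcon n hodd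
      set g := 2 * si ^ 2 + 4 * n * si * (ga / c - 1) - (2 * s ^ 2 + d) with hg
      have hg0 : 0 < g := by rw [hg]; linarith
      refine ⟨min (g / (2 + 2 * n)) ((s ^ 2 - d) / (2 + 2 * n)),
        lt_min (by positivity) (div_pos (by linarith) hn2), fun ε hε hlt' hB => ?_⟩
      obtain ⟨S0, hS0, hB⟩ := hB
      rcases hS0 with ⟨rfl, -⟩ | rfl
      · have h3 := hlt'.trans_le (min_le_left _ _)
        rw [lt_div_iff₀ hn2] at h3
        have h4 := hB si ga hsi hga hsi1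
        linarith
      · exact h2 ε hε (hlt'.trans_le (min_le_right _ _)) hB
    · refine ⟨(s ^ 2 - d) / (2 + 2 * n), div_pos (by linarith) hn2, fun ε hε hlt' hB => ?_⟩
      obtain ⟨S0, hS0, hB⟩ := hB
      rcases hS0 with ⟨-, ho⟩ | rfl
      · exact hodd ho
      · exact h2 ε hε hlt' hB
  -- bound for `n`
  set ga := Real.sqrt (1 - (s / 2) ^ 2) with hgadef
  have hga : (s / 2) ^ 2 + ga ^ 2 = 1 := by
    rw [hgadef, Real.sq_sqrt (by nlinarith)]; ring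
  have hga0 : 0 ≤ ga := Real.sqrt_nonneg _
  have hgac : c < ga := by
    apply lt_of_pow_lt_pow_left₀ 2 hga0
    have e : (s / 2) ^ 2 = s ^ 2 / 4 := by ring
    rw [e] at hga
    linarith
  set κ := 2 * s * (ga / c - 1) with hκ
  have hκ0 : 0 < κ := by
    have : 1 < ga / c := by rw [lt_div_iff₀ hc]; linarith
    exact mul_pos (by linarith) (by linarith)
  obtain ⟨Nm, hNm⟩ := exists_nat_gt (2 / κ)
  obtain ⟨e, he, hall⟩ := unif _ hex Nm
  set ε := min (min (e / 2) (κ / 4)) (min (1 / 100000) ((1 / c - 1) / 2)) with hεdef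
  have hε0 : 0 < ε := lt_min (lt_min (by linarith) (by linarith))
    (lt_min (by norm_num) (by linarith))
  have hε1 : ε ≤ e / 2 := (min_le_left _ _).trans (min_le_left _ _)
  have hε2 : ε ≤ κ / 4 := (min_le_left _ _).trans (min_le_right _ _)
  have hε3 : ε ≤ 1 / 100000 := (min_le_right _ _).trans (min_le_left _ _)
  have hε4 : ε ≤ (1 / c - 1) / 2 := (min_le_right _ _).trans (min_le_right _ _)
  obtain ⟨n, hB⟩ := exists_BB hs0 hs hc hsc hd0 hd hε0 hε3 (by linarith) hM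
  have hn : (0 : ℝ) ≤ n := Nat.cast_nonneg n
  have hnN : n ≤ Nm := by
    obtain ⟨S0, hS0, hB'⟩ := hB
    have hS00 : 0 ≤ S0 := by rcases hS0 with ⟨rfl, -⟩ | rfl <;> norm_num
    have h1 := hB' (s / 2) ga (by linarith) hga (by
      have : (s / 2) ^ 2 = s ^ 2 / 4 := by ring
      rw [this]; linarith)
    have h2 : 4 * (n : ℝ) * (s / 2) * (ga / c - 1) = n * κ := by rw [hκ]; ring
    have h3 : 0 ≤ 2 * (s / 2) ^ 2 * S0 := by positivity
    rw [h2] at h1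
    have h4 : (n : ℝ) * ε ≤ n * (κ / 4) := mul_le_mul_of_nonneg_left hε2 hn
    have h5 : (n : ℝ) * κ ≤ 2 := by linarith
    have h6 : (n : ℝ) < Nm := by
      rw [div_lt_iff₀ hκ0] at hNm
      have : (n : ℝ) * κ < Nm * κ := by linarith
      exact lt_of_mul_lt_mul_right this hκ0.le
    exact_mod_cast h6.le
  exact hall n hnN ε hε0 (by linarith) hB

end Pool.Agent.LawnInt
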