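import Pool.Agent.LawnInt.Anchor

/-!
# The zigzag curve
-/

namespace Pool.Agent.LawnInt

open Finset Pool.Agent.LawnZig

section hullfam

variable (s c d : ℝ)

/-- a linear inequality which holds at the vertices holds on the hull -/
lemma hull_le {s c d : ℝ} (al be ga : ℝ)
    (h : ∀ i, al * fam s c d i 0 + be * fam s c d i 1 ≤ ga) :
    ∀ z ∈ hull (fam s c d), al * z.re + be * z.im ≤ ga := by
  have hconv : Convex ℝ {z : ℂ | al * z.re + be * z.im ≤ ga} := by
    intro z hz w hw a b ha hb hab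
    simp only [Set.mem_ofPred_eq] at hz hw ⊢
    have e : al * (a • z + b • w).re + be * (a • z + b • w).im
        = a * (al * z.re + be * z.im) + b * (al * w.re + be * w.im) := by
      simp; ring
    rw [e]
    have h1 := mul_le_mul_of_nonneg_left hz ha
    have h2 := mul_le_mul_of_nonneg_left hw hb
    have h3 : a * ga + b * ga = ga := by rw [← add_mul, hab, one_mul]
    linarith
  intro z hz
  refine convexHull_min ?_ hconv hz
  rintro _ ⟨i, rfl⟩
  exact h i

end hullfam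

/-- the points to the right of `1/2` -/
lemma side_cover {s c d H M X Y : ℝ} (hs0 : 0 < s) (hs : s < 1 / 100)
    (hd0 : 0 ≤ d) (hd : d < s ^ 2) (hc : 99 / 100 < c) (hc1 : c < 1) (hsc : s ^ 2 + c ^ 2 = 1)
    (hH : 1 ≤ H) (hH2 : H ≤ 1001 / 1000) (hM0 : 0 ≤ M) (hM : M ≤ 1 / 1000) (hHM : H - M = c)
    (hX : 1 / 2 ≤ X) (hXA : X ≤ 5 / 2 - s ^ 2 - d / 2) (hY : -H ≤ Y)
    (h2 : (2 - s ^ 2 - d / 2) * (H - Y) ≥ (H + M) * (X - 1 / 2))
    (h3 : (3 / 2 - s ^ 2 - d / 2) * (Y + H) ≥ (H - M) * (X - 1)) :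
    (X ≤ 3 / 2 - s ^ 2 - d / 2 ∧ (Y + M) ^ 2 ≤ 1) ∨
      ((X - (1 / 2 - s)) ^ 2 + (Y - M) ^ 2 ≤ 1) ∨
      ((X - (3 / 2 - s ^ 2 - d / 2)) ^ 2 + (Y + M) ^ 2 ≤ 1) := by
  have hs2 : s ^ 2 < 1 / 10000 := by
    have : s ^ 2 < (1 / 100) ^ 2 := pow_lt_pow_left₀ hs hs0.le (by norm_num)
    linarith
  have hs20 : 0 < s ^ 2 := by positivity
  by_cases hXa : X ≤ 3 / 2 - s ^ 2 - d / 2
  · by_cases hY1 : Y ≤ 1 - M
    · left
      refine ⟨hXa, ?_⟩
      have : (Y + M) ^ 2 ≤ 1 ^ 2 := sq_le_sq' (by linarith) (by linarith)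
      linarith
    · right; left
      have hY1' := not_le.1 hY1
      set t := X - 1 / 2 with ht
      have ht0 : 0 ≤ t := by rw [ht]; linarith
      -- `t` is small
      have h4 : (H + M) * t ≤ 2 * (H - Y) := by
        have h5 : 0 ≤ H - Y := by
          by_contra hcon
          have h6 : H - Y < 0 := not_le.1 hcon
          have h7 : (2 - s ^ 2 - d / 2) * (H - Y) < 0 :=
            mul_neg_of_pos_of_neg (by linarith) h6
          have h8 : 0 ≤ (H + M) * t := mul_nonneg (by linarith) ht0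
          linarith
        have h6 : (2 - s ^ 2 - d / 2) * (H - Y) ≤ 2 * (H - Y) :=
          mul_le_mul_of_nonneg_right (by linarith) h5
        linarith
      have h5 : t ≤ 2 * (H - Y) := by
        have : 1 * t ≤ (H + M) * t := mul_le_mul_of_nonneg_right (by linarith) ht0
        linarith
      have h6 : t ≤ 4 / 1000 := by linarith
      have h7 : Y - M ≤ c - t / 2 := by linarith
      have h8 : (Y - M) ^ 2 ≤ (c - t / 2) ^ 2 := pow_le_pow_left₀ (by linarith) h7 2
      have e1 : X - (1 / 2 - s) = t + s := by rw [ht]; ring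
      rw [e1]
      have e2 : (t + s) ^ 2 + (c - t / 2) ^ 2
          = (s ^ 2 + c ^ 2) + t * (5 / 4 * t + 2 * s - c) := by ring
      have h9 : t * (5 / 4 * t + 2 * s - c) ≤ 0 :=
        mul_nonpos_of_nonneg_of_nonpos ht0 (by linarith)
      linarith
  · right; right
    have hXa' := not_le.1 hXa
    set u := 5 / 2 - s ^ 2 - d / 2 - X with hu
    have hu0 : 0 ≤ u := by rw [hu]; linarith
    have hu1 : u ≤ 1 := by rw [hu]; linarith
    have e1 : X - (3 / 2 - s ^ 2 - d / 2) = 1 - u := by rw [hu]; ring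
    rw [e1]
    have h4 : Y + M ≤ u := by
      have h5 : (2 - s ^ 2 - d / 2) * (Y + M) ≤ (H + M) * u := by
        have e2 : (H + M) * (X - 1 / 2) = (H + M) * ((2 - s ^ 2 - d / 2) - u) := by
          rw [hu]; ring
        rw [e2] at h2
        linarith
      have h6 : (H + M) * u ≤ (2 - s ^ 2 - d / 2) * u :=
        mul_le_mul_of_nonneg_right (by linarith) hu0
      exact le_of_mul_le_mul_left (h5.trans h6) (by linarith)
    have h5 : -u ≤ Y + M := by
      have h5 : (3 / 2 - s ^ 2 - d / 2) * (-(Y + M)) ≤ (H - M) * u := by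
        have e2 : (H - M) * (X - 1) = (H - M) * ((3 / 2 - s ^ 2 - d / 2) - u) := by
          rw [hu]; ring
        rw [e2] at h3
        linarith
      have h6 : (H - M) * u ≤ (3 / 2 - s ^ 2 - d / 2) * u :=
        mul_le_mul_of_nonneg_right (by linarith) hu0
      have := le_of_mul_le_mul_left (h5.trans h6) (by linarith)
      linarith
    have h6 : (Y + M) ^ 2 ≤ u ^ 2 := sq_le_sq' h5 h4
    have h7 : (1 - u) ^ 2 + u ^ 2 = 1 - 2 * (u * (1 - u)) := by ring
    have h8 : 0 ≤ u * (1 - u) := mul_nonneg hu0 (by linarith)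
    linarith

section curve

variable (s M a2 : ℝ) (n : ℕ)

/-- left end of plateau number `p` -/
noncomputable def lft (p : ℕ) : ℝ := if p = 0 then -a2 else -(1 / 2) + ((p : ℝ) - 1) / n + s

/-- right end of plateau number `p` -/
noncomputable def rgt (p : ℕ) : ℝ := if p = n then a2 else -(1 / 2) + ((p : ℝ) + 1) / n - s

/-- the curve -/
noncomputable def crv (i : ℕ) : ℂ :=
  ⟨if i % 2 = 0 then lft s a2 n (i / 2) else rgt s a2 n (i / 2), (-1) ^ (i / 2) * M⟩

lemma crv_even (p : ℕ) : crv s M a2 n (2 * p) = ⟨lft s a2 n p, (-1) ^ p * M⟩ := by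
  unfold crv
  have h1 : (2 * p) % 2 = 0 := by omega
  have h2 : (2 * p) / 2 = p := by omega
  rw [h1, h2, if_pos rfl]

lemma crv_odd (p : ℕ) : crv s M a2 n (2 * p + 1) = ⟨rgt s a2 n p, (-1) ^ p * M⟩ := by
  unfold crv
  have h1 : (2 * p + 1) % 2 = 1 := by omega
  have h2 : (2 * p + 1) / 2 = p := by omega
  rw [h1, h2, if_neg (by norm_num)]

lemma sum_pairs (f : ℕ → ℝ) (n : ℕ) :
    ∑ i ∈ range (2 * n + 1), f i = ∑ p ∈ range n, (f (2 * p) + f (2 * p + 1)) + f (2 * n) := by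
  induction n with
  | zero => simp
  | succ n ih =>
    have e1 : 2 * (n + 1) + 1 = (2 * n + 1) + 1 + 1 := by ring
    have e2 : 2 * (n + 1) = 2 * n + 1 + 1 := by ring
    rw [e1, sum_range_succ, sum_range_succ, ih, sum_range_succ _ n, e2]
    ring

variable {s M a2 n}

lemma lft_le (hn : 0 < n) (ha : 3 / 2 - s ≤ a2) (p : ℕ) :
    lft s a2 n p ≤ -(1 / 2) + ((p : ℝ) - 1) / n + s := by
  unfold lft
  split_ifs with h
  · subst h
    have h1 : (1 : ℝ) / n ≤ 1 := by
      rw [div_le_one (by positivity)]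
      exact_mod_cast hn
    have e : ((0 : ℕ) - 1 : ℝ) / n = -(1 / n) := by push_cast; ring
    rw [e]; linarith
  · exact le_rfl

lemma le_rgt (hn : 0 < n) (ha : 3 / 2 - s ≤ a2) (p : ℕ) :
    -(1 / 2) + ((p : ℝ) + 1) / n - s ≤ rgt s a2 n p := by
  unfold rgt
  split_ifs with h
  · subst h
    have h0 : (0 : ℝ) < p := by exact_mod_cast hn
    have h1 : (1 : ℝ) / p ≤ 1 := by
      rw [div_le_one h0]
      exact_mod_cast hn
    have e : ((p : ℝ) + 1) / p = 1 + 1 / p := by field_simp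
    rw [e]; linarith
  · exact le_rfl

lemma lft_le_rgt (hn : 0 < n) (ha : 3 / 2 - s ≤ a2) (hns : n * s ≤ 1) (p : ℕ) :
    lft s a2 n p ≤ rgt s a2 n p := by
  have h0 : (0 : ℝ) < n := by exact_mod_cast hn
  refine (lft_le hn ha p).trans (le_trans ?_ (le_rgt hn ha p))
  have h1 : s ≤ 1 / n := by rw [le_div_iff₀ h0]; linarith
  have e1 : ((p : ℝ) + 1) / n = p / n + 1 / n := by ring
  have e2 : ((p : ℝ) - 1) / n = p / n - 1 / n := by ring
  rw [e1, e2]; linarith

/-- horizontal distance -/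
lemma dist_h (a b y : ℝ) (h : a ≤ b) : dist (⟨a, y⟩ : ℂ) ⟨b, y⟩ = b - a := by
  rw [dist_eq_sqrt]
  simp only [sub_self]
  have e : (b - a) ^ 2 + 0 ^ 2 = (b - a) ^ 2 := by ring
  rw [e, Real.sqrt_sq (by linarith)]

lemma crv_len (hn : 0 < n) (ha : 3 / 2 - s ≤ a2) (hns : n * s ≤ 1) :
    len (2 * n + 1) (crv s M a2 n)
      = 2 * a2 - 2 * n * s + 1 + n * Real.sqrt ((2 * s - 1 / n) ^ 2 + 4 * M ^ 2) := by
  have h0 : (0 : ℝ) < n := by exact_mod_cast hn
  set q := Real.sqrt ((2 * s - 1 / n) ^ 2 + 4 * M ^ 2) with hq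
  have hev : ∀ p, dist (crv s M a2 n (2 * p)) (crv s M a2 n (2 * p + 1))
      = rgt s a2 n p - lft s a2 n p := by
    intro p
    rw [crv_even, crv_odd]
    exact dist_h _ _ _ (lft_le_rgt hn ha hns p)
  have hgap : ∀ p < n, lft s a2 n (p + 1) - rgt s a2 n p = 2 * s - 1 / n := by
    intro p hp
    unfold lft rgt
    rw [if_neg (by omega), if_neg (by omega)]
    push_cast; field_simp; ring
  have hod : ∀ p < n, dist (crv s M a2 n (2 * p + 1)) (crv s M a2 n (2 * p + 1 + 1)) = q := by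
    intro p hp
    rw [crv_odd, show 2 * p + 1 + 1 = 2 * (p + 1) by ring, crv_even, dist_eq_sqrt, hq]
    congr 1
    simp only
    rw [hgap p hp]
    have h2 : ((-1 : ℝ) ^ p) ^ 2 = 1 := by
      rw [← pow_mul, mul_comm, pow_mul]; simp
    have e : ((-1 : ℝ) ^ (p + 1) * M - (-1) ^ p * M) ^ 2 = ((-1) ^ p) ^ 2 * (4 * M ^ 2) := by
      rw [pow_succ]; ring
    rw [e, h2, one_mul]
  have hsum : ∀ j ≤ n, ∑ p ∈ range j, (rgt s a2 n p - lft s a2 n p)
      = lft s a2 n j - lft s a2 n 0 - j * (2 * s - 1 / n) := by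
    intro j hj
    induction j with
    | zero => simp
    | succ j ih =>
      rw [sum_range_succ, ih (by omega)]
      have := hgap j (by omega)
      push_cast
      linarith
  unfold len
  rw [sum_pairs]
  have h1 : ∑ p ∈ range n, (dist (crv s M a2 n (2 * p)) (crv s M a2 n (2 * p + 1))
        + dist (crv s M a2 n (2 * p + 1)) (crv s M a2 n (2 * p + 1 + 1)))
      = ∑ p ∈ range n, ((rgt s a2 n p - lft s a2 n p) + q) := by
    apply Finset.sum_congr rfl
    intro p hp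
    rw [hev, hod p (mem_range.1 hp)]
  rw [h1, sum_add_distrib, hsum n le_rfl, sum_const, card_range, nsmul_eq_mul, hev n]
  have hl0 : lft s a2 n 0 = -a2 := by simp [lft]
  have hrn : rgt s a2 n n = a2 := by simp [rgt]
  rw [hl0, hrn]
  field_simp
  ring

/-- a point on plateau number `p` -/
lemma mem_plateau (p : ℕ) (t : ℝ) (h1 : lft s a2 n p ≤ t) (h2 : t ≤ rgt s a2 n p) :
    (⟨t, (-1) ^ p * M⟩ : ℂ) ∈ segment ℝ (crv s M a2 n (2 * p)) (crv s M a2 n (2 * p + 1)) := by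
  rw [crv_even, crv_odd]
  have h : t ∈ segment ℝ (lft s a2 n p) (rgt s a2 n p) := by
    rw [segment_eq_Icc (le_trans h1 h2)]; exact ⟨h1, h2⟩
  obtain ⟨a, b, ha, hb, hab, ht⟩ := h
  refine ⟨a, b, ha, hb, hab, ?_⟩
  apply Complex.ext
  · simpa using ht
  · simp only [Complex.add_im, Complex.smul_im, smul_eq_mul]
    rw [← add_mul, hab, one_mul]

lemma dist_le_one {x y a b : ℝ} (h : (x - a) ^ 2 + (y - b) ^ 2 ≤ 1) :
    dist (⟨x, y⟩ : ℂ) ⟨a, b⟩ ≤ 1 := by
  rw [dist_eq_sqrt]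
  apply Real.sqrt_le_iff.2 ⟨zero_le_one, ?_⟩
  simp only
  have e : (a - x) ^ 2 + (b - y) ^ 2 = (x - a) ^ 2 + (y - b) ^ 2 := by ring
  rw [e]; linarith

end curve

end Pool.Agent.LawnInt
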